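import Mathlib

set_option autoImplicit false

/-!
# Cauchy-Schwarz, convexity, resampling of a coordinate
-/

namespace Pool.Agent.N381.ST

open Finset

theorem csgen {X Z : Type} [Fintype X] [Fintype Z] (F : X → Z → ℂ) (f : X → ℂ) (g : Z → ℂ)
    (hf : ∀ x, ‖f x‖ ≤ 1) (hg : ∀ z, ‖g z‖ ≤ 1) :
    ‖∑ x, ∑ z, F x z * f x * g z‖ ^ 2 ≤
      (Fintype.card Z : ℝ) * ∑ x, ∑ x', ‖∑ z, F x z * (starRingEnd ℂ) (F x' z)‖ := by
  set u : Z → ℂ := fun z => ∑ x, F x z * f x with hu
  have h1 : ∑ x, ∑ z, F x z * f x * g z = ∑ z, u z * g z := by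
    rw [Finset.sum_comm]
    refine Finset.sum_congr rfl fun z _ => ?_
    simp only [hu, Finset.sum_mul]
  have h2 : ‖∑ x, ∑ z, F x z * f x * g z‖ ≤ ∑ z, ‖u z‖ := by
    rw [h1]
    refine le_trans (norm_sum_le _ _) (Finset.sum_le_sum fun z _ => ?_)
    rw [norm_mul]
    exact mul_le_of_le_one_right (norm_nonneg _) (hg z)
  have h3 : (∑ z, ‖u z‖) ^ 2 ≤ (Fintype.card Z : ℝ) * ∑ z, ‖u z‖ ^ 2 := by
    have := sq_sum_le_card_mul_sum_sq (s := (Finset.univ : Finset Z)) (f := fun z => ‖u z‖)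
    simpa [Finset.card_univ] using this
  have h4 : ((∑ z, ‖u z‖ ^ 2 : ℝ) : ℂ) =
      ∑ x, ∑ x', f x * (starRingEnd ℂ) (f x') * ∑ z, F x z * (starRingEnd ℂ) (F x' z) := by
    push_cast
    have : ∀ z, ((‖u z‖ : ℂ)) ^ 2 =
        ∑ x, ∑ x', f x * (starRingEnd ℂ) (f x') * (F x z * (starRingEnd ℂ) (F x' z)) := by
      intro z
      have h5 : ((‖u z‖ : ℂ)) ^ 2 = u z * (starRingEnd ℂ) (u z) := by
        rw [Complex.mul_conj, Complex.normSq_eq_norm_sq]
        push_cast
        rfl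
      rw [h5]
      simp only [hu, map_sum, map_mul]
      rw [Finset.sum_mul_sum]
      refine Finset.sum_congr rfl fun x _ => Finset.sum_congr rfl fun x' _ => by ring
    simp only [this]
    rw [Finset.sum_comm]
    refine Finset.sum_congr rfl fun x _ => ?_
    rw [Finset.sum_comm]
    refine Finset.sum_congr rfl fun x' _ => ?_
    rw [Finset.mul_sum]
  have h5 : ∑ z, ‖u z‖ ^ 2 ≤ ∑ x, ∑ x', ‖∑ z, F x z * (starRingEnd ℂ) (F x' z)‖ := by
    have h6 : (∑ z, ‖u z‖ ^ 2) = ‖((∑ z, ‖u z‖ ^ 2 : ℝ) : ℂ)‖ := by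
      rw [Complex.norm_real, Real.norm_of_nonneg (Finset.sum_nonneg fun z _ => by positivity)]
    rw [h6, h4]
    refine le_trans (norm_sum_le _ _) (Finset.sum_le_sum fun x _ => ?_)
    refine le_trans (norm_sum_le _ _) (Finset.sum_le_sum fun x' _ => ?_)
    rw [norm_mul, norm_mul, RCLike.norm_conj]
    have : ‖f x‖ * ‖f x'‖ ≤ 1 := by
      calc ‖f x‖ * ‖f x'‖ ≤ 1 * 1 := mul_le_mul (hf x) (hf x') (norm_nonneg _) zero_le_one
        _ = 1 := by ring
    exact mul_le_of_le_one_left (norm_nonneg _) this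
  calc ‖∑ x, ∑ z, F x z * f x * g z‖ ^ 2 ≤ (∑ z, ‖u z‖) ^ 2 :=
        pow_le_pow_left₀ (norm_nonneg _) h2 2
    _ ≤ (Fintype.card Z : ℝ) * ∑ z, ‖u z‖ ^ 2 := h3
    _ ≤ _ := mul_le_mul_of_nonneg_left h5 (by positivity)

/-- Convexity of `m ↦ μ ^ m`. -/
theorem convex (μ : ℝ) (h0 : 0 < μ) (_h1 : μ ≤ 1) (R m : ℕ) (hR : 1 ≤ R) (hm : m ≤ R) :
    μ ^ m ≤ ((R - m : ℕ) : ℝ) / R + μ ^ R := by
  have hR' : (0 : ℝ) < R := by exact_mod_cast hR
  have hw1 : 0 ≤ ((R - m : ℕ) : ℝ) / R := by positivity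
  have hw2 : 0 ≤ (m : ℝ) / R := by positivity
  have hsum : ((R - m : ℕ) : ℝ) / R + (m : ℝ) / R = 1 := by
    rw [Nat.cast_sub hm, ← add_div, sub_add_cancel, div_self hR'.ne']
  have h := Real.geom_mean_le_arith_mean2_weighted hw1 hw2 (zero_le_one) (pow_pos h0 R).le hsum
  rw [Real.one_rpow, one_mul] at h
  have h2 : (μ ^ R) ^ ((m : ℝ) / R) = μ ^ m := by
    rw [← Real.rpow_natCast μ R, ← Real.rpow_mul h0.le, mul_div_cancel₀ _ hR'.ne', Real.rpow_natCast]
  rw [h2] at h
  have h3 : (m : ℝ) / R * μ ^ R ≤ μ ^ R := by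
    apply mul_le_of_le_one_left (pow_pos h0 R).le
    rw [div_le_one hR']
    exact_mod_cast hm
  linarith

/-- Resampling of one coordinate. -/
theorem resample {k h : ℕ} (i : Fin k) (B : Finset (Fin k → Fin h)) (c : ℕ)
    (hB : ∀ x : Fin k → Fin h, #(univ.filter (fun a : Fin h => Function.update x i a ∈ B)) ≤ c) :
    #B * h ≤ c * Fintype.card (Fin k → Fin h) := by
  set S : Finset ((Fin k → Fin h) × Fin h) := univ.filter (fun q => Function.update q.1 i q.2 ∈ B) with hS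
  have h1 : #S = #B * h := by
    have h2 : #S = #(B ×ˢ (univ : Finset (Fin h))) := by
      refine Finset.card_bij' (fun q _ => (Function.update q.1 i q.2, q.1 i))
        (fun q _ => (Function.update q.1 i q.2, q.1 i)) ?_ ?_ ?_ ?_
      · intro q hq
        rw [hS, Finset.mem_filter] at hq
        rw [Finset.mem_product]
        exact ⟨hq.2, Finset.mem_univ _⟩
      · intro q hq
        rw [Finset.mem_product] at hq
        rw [hS, Finset.mem_filter]
        refine ⟨Finset.mem_univ _, ?_⟩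
        simp only [Function.update_idem, Function.update_eq_self]
        exact hq.1
      · intro q _
        simp
      · intro q _
        simp
    rw [h2, Finset.card_product, Finset.card_univ, Fintype.card_fin]
  have h3 : #S = ∑ x : Fin k → Fin h, #(univ.filter (fun a : Fin h => Function.update x i a ∈ B)) := by
    rw [Finset.card_eq_sum_card_fiberwise (f := Prod.fst) (t := (univ : Finset (Fin k → Fin h)))
      (fun _ _ => Finset.mem_univ _)]
    refine Finset.sum_congr rfl fun x _ => ?_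
    refine Finset.card_bij' (fun q _ => q.2) (fun a _ => (x, a)) ?_ ?_ ?_ ?_
    · intro q hq
      rw [Finset.mem_filter, hS, Finset.mem_filter] at hq
      rw [Finset.mem_filter]
      refine ⟨Finset.mem_univ _, ?_⟩
      rw [← hq.2]
      exact hq.1.2
    · intro a ha
      rw [Finset.mem_filter] at ha
      rw [Finset.mem_filter, hS, Finset.mem_filter]
      exact ⟨⟨Finset.mem_univ _, ha.2⟩, rfl⟩
    · intro q hq
      rw [Finset.mem_filter] at hq
      rw [← hq.2]
    · intro a _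
      rfl
  rw [← h1, h3]
  calc ∑ x : Fin k → Fin h, #(univ.filter (fun a : Fin h => Function.update x i a ∈ B))
      ≤ ∑ _x : Fin k → Fin h, c := Finset.sum_le_sum fun x _ => hB x
    _ = c * Fintype.card (Fin k → Fin h) := by
      rw [Finset.sum_const, Finset.card_univ, smul_eq_mul, mul_comm]

end Pool.Agent.N381.ST
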