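import Mathlib

set_option autoImplicit false

/-!
# Sums over a random set along distinct vectors are rarely all equal
-/

namespace Pool.Agent.N381.ST

open Finset

variable {P A G : Type} [DecidableEq P] [DecidableEq A] [AddCommGroup G] [DecidableEq G] [Fintype G]

/-- The sets `Y ⊆ s` for which `∑_{p ∈ Y} x a p + c a` is the same for all `a ∈ B`. -/
def Good (x : A → P → G) (c : A → G) (s : Finset P) (B : Finset A) : Finset (Finset P) :=
  s.powerset.filter (fun Y => ∀ a ∈ B, ∀ b ∈ B, ∑ p ∈ Y, x a p + c a = ∑ p ∈ Y, x b p + c b)

theorem good_card (x : A → P → G) (c : A → G) (s : Finset P) : ∀ (κ : ℕ) (B : Finset A),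
    (∀ a ∈ B, ∀ b ∈ B, a ≠ b → ∃ p ∈ s, x a p ≠ x b p) → (Fintype.card G) ^ κ ≤ #B →
    2 ≤ Fintype.card G → 2 ^ κ * #(Good x c s B) ≤ 2 ^ #s := by
  induction s using Finset.induction_on with
  | empty =>
    intro κ B hB hκ hG
    have h1 : #B ≤ 1 := by
      rw [Finset.card_le_one]
      intro a ha b hb
      by_contra hab
      obtain ⟨p, hp, _⟩ := hB a ha b hb hab
      simp at hp
    have hκ0 : κ = 0 := by
      by_contra h
      have : 2 ^ 1 ≤ (Fintype.card G) ^ κ :=
        le_trans (Nat.pow_le_pow_left hG 1) (Nat.pow_le_pow_right (by omega) (by omega))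
      omega
    subst hκ0
    simp only [pow_zero, one_mul, card_empty]
    refine le_trans (Finset.card_filter_le _ _) ?_
    simp
  | insert q s hq ih =>
    intro κ B hB hκ hG
    have hcs : #(insert q s) = #s + 1 := Finset.card_insert_of_notMem hq
    rw [hcs]
    -- erasing q
    have herase : ∀ (B' : Finset A), B' ⊆ B → (∀ a ∈ B', ∀ b ∈ B', x a q = x b q) →
        ∀ Y ∈ Good x c (insert q s) B, Y.erase q ∈ Good x c s B' := by
      intro B' hB' hq' Y hY
      simp only [Good, mem_filter, mem_powerset] at hY ⊢
      refine ⟨?_, ?_⟩
      · intro p hp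
        have := hY.1 (Finset.mem_of_mem_erase hp)
        rw [Finset.mem_insert] at this
        rcases this with h | h
        · exact absurd h (Finset.ne_of_mem_erase hp)
        · exact h
      · intro a ha b hb
        have h := hY.2 a (hB' ha) b (hB' hb)
        by_cases hqY : q ∈ Y
        · rw [← Finset.add_sum_erase Y _ hqY, ← Finset.add_sum_erase Y _ hqY, hq' a ha b hb] at h
          rw [add_assoc, add_assoc] at h
          exact add_left_cancel h
        · rw [Finset.erase_eq_of_notMem hqY]
          exact h
    by_cases hall : ∀ a ∈ B, ∀ b ∈ B, x a q = x b q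
    · have h1 := ih κ B (by
        intro a ha b hb hab
        obtain ⟨p, hp, hne⟩ := hB a ha b hb hab
        rw [Finset.mem_insert] at hp
        rcases hp with h | h
        · subst h; exact absurd (hall a ha b hb) hne
        · exact ⟨p, h, hne⟩) hκ hG
      have h2 : #(Good x c (insert q s) B) ≤ 2 * #(Good x c s B) := by
        have hsub : Good x c (insert q s) B ⊆ Good x c s B ∪ (Good x c s B).image (insert q) := by
          intro Y hY
          have h3 := herase B (Finset.Subset.refl _) hall Y hY
          rw [Finset.mem_union, Finset.mem_image]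
          by_cases hqY : q ∈ Y
          · right
            exact ⟨Y.erase q, h3, Finset.insert_erase hqY⟩
          · left
            rwa [Finset.erase_eq_of_notMem hqY] at h3
        calc #(Good x c (insert q s) B) ≤ #(Good x c s B ∪ (Good x c s B).image (insert q)) :=
              Finset.card_le_card hsub
          _ ≤ #(Good x c s B) + #((Good x c s B).image (insert q)) := Finset.card_union_le _ _
          _ ≤ 2 * #(Good x c s B) := by
              have := Finset.card_image_le (s := Good x c s B) (f := insert q)
              omega
      calc 2 ^ κ * #(Good x c (insert q s) B) ≤ 2 ^ κ * (2 * #(Good x c s B)) :=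
            Nat.mul_le_mul_left _ h2
        _ = 2 * (2 ^ κ * #(Good x c s B)) := by ring
        _ ≤ 2 * 2 ^ #s := Nat.mul_le_mul_left _ h1
        _ = 2 ^ (#s + 1) := by ring
    · push Not at hall
      obtain ⟨a0, ha0, b0, hb0, hab0⟩ := hall
      cases κ with
      | zero =>
        simp only [pow_zero, one_mul]
        refine le_trans (Finset.card_filter_le _ _) ?_
        rw [Finset.card_powerset, hcs]
      | succ κ =>
        -- a large class
        obtain ⟨u, hu⟩ : ∃ u : G, (Fintype.card G) ^ κ ≤ #(B.filter (fun a => x a q = u)) := by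
          by_contra hcon
          push Not at hcon
          have h1 : #B = ∑ u : G, #(B.filter (fun a => x a q = u)) :=
            Finset.card_eq_sum_card_fiberwise (fun a _ => Finset.mem_univ _)
          have h2 : ∑ u : G, #(B.filter (fun a => x a q = u)) < ∑ _u : G, (Fintype.card G) ^ κ :=
            Finset.sum_lt_sum_of_nonempty ⟨0, Finset.mem_univ _⟩ (fun u _ => hcon u)
          rw [Finset.sum_const, Finset.card_univ, smul_eq_mul, ← h1] at h2
          have h3 : Fintype.card G * Fintype.card G ^ κ = Fintype.card G ^ (κ + 1) := by ring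
          omega
        set B' := B.filter (fun a => x a q = u) with hB'
        have hB'B : B' ⊆ B := Finset.filter_subset _ _
        have hBq : ∀ a ∈ B', x a q = u := fun a ha => (Finset.mem_filter.mp ha).2
        have h1 := ih κ B' (by
          intro a ha b hb hab
          obtain ⟨p, hp, hne⟩ := hB a (hB'B ha) b (hB'B hb) hab
          rw [Finset.mem_insert] at hp
          rcases hp with h | h
          · subst h; exact absurd ((hBq a ha).trans (hBq b hb).symm) hne
          · exact ⟨p, h, hne⟩) hu hG
        have h2 : #(Good x c (insert q s) B) ≤ #(Good x c s B') := by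
          refine Finset.card_le_card_of_injOn (fun Y => Y.erase q)
            (fun Y hY => herase B' hB'B (fun a ha b hb => (hBq a ha).trans (hBq b hb).symm) Y hY) ?_
          intro Y hY Z hZ hYZ
          simp only [Finset.mem_coe, Good, mem_filter, mem_powerset] at hY hZ
          simp only at hYZ
          have hY2 := hY.2 a0 ha0 b0 hb0
          have hZ2 := hZ.2 a0 ha0 b0 hb0
          have key : ∀ U V : Finset P, q ∈ U → q ∉ V → U.erase q = V.erase q →
              (∑ p ∈ U, x a0 p + c a0 = ∑ p ∈ U, x b0 p + c b0) →
              (∑ p ∈ V, x a0 p + c a0 = ∑ p ∈ V, x b0 p + c b0) → False := by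
            intro U V hU hV he h1 h2
            rw [Finset.erase_eq_of_notMem hV] at he
            rw [← Finset.add_sum_erase U _ hU, ← Finset.add_sum_erase U _ hU, he] at h1
            rw [add_assoc, add_assoc, h2] at h1
            exact hab0 (add_right_cancel h1)
          by_cases h3 : q ∈ Y <;> by_cases h4 : q ∈ Z
          · rw [← Finset.insert_erase h3, hYZ, Finset.insert_erase h4]
          · exact (key Y Z h3 h4 hYZ hY2 hZ2).elim
          · exact (key Z Y h4 h3 hYZ.symm hZ2 hY2).elim
          · rw [← Finset.erase_eq_of_notMem h3, hYZ, Finset.erase_eq_of_notMem h4]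
        calc 2 ^ (κ + 1) * #(Good x c (insert q s) B) ≤ 2 ^ (κ + 1) * #(Good x c s B') :=
              Nat.mul_le_mul_left _ h2
          _ = 2 * (2 ^ κ * #(Good x c s B')) := by ring
          _ ≤ 2 * 2 ^ #s := Nat.mul_le_mul_left _ h1
          _ = 2 ^ (#s + 1) := by ring

end Pool.Agent.N381.ST
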