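import Pool.Agent.N381.ST.Chr
import Pool.Agent.N381.ST.CS
import Pool.Agent.N381.ST.Dist

set_option autoImplicit false

/-!
# The discrepancy of phase functions
-/

namespace Pool.Agent.N381.ST

open Finset ZMod

variable {N : ℕ} [NeZero N] {k h : ℕ} {P : Type} [Fintype P] [DecidableEq P]

/-- The difference of the phases at the place `p`. -/
def dl (w : Fin k → Fin h → P → ZMod N) (x x' : Fin k → Fin h) (p : P) : ZMod N :=
  ∑ i, w i (x i) p - ∑ i, w i (x' i) p

/-- The phase. -/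
def ph (w : Fin k → Fin h → P → ZMod N) (x : Fin k → Fin h) (Y : Finset P) : ZMod N :=
  ∑ p ∈ Y, ∑ i, w i (x i) p

theorem chr_sum {ι : Type} (s : Finset ι) (f : ι → ZMod N) :
    (stdAddChar (∑ i ∈ s, f i) : ℂ) = ∏ i ∈ s, stdAddChar (f i) := by
  classical
  induction s using Finset.induction_on with
  | empty => simp
  | insert a s ha ih => rw [Finset.sum_insert ha, Finset.prod_insert ha, AddChar.map_add_eq_mul, ih]

theorem prod_le {t : P → ℝ} (lam : ℝ) (hl : 0 ≤ lam) (h0 : ∀ p, 0 ≤ t p) (h1 : ∀ p, t p ≤ 1)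
    (S : Finset P) (hS : ∀ p ∈ S, t p ≤ lam) : ∏ p, t p ≤ lam ^ #S := by
  rw [← Finset.prod_mul_prod_compl S]
  have h2 : ∏ p ∈ S, t p ≤ lam ^ #S := by
    rw [← Finset.prod_const]
    exact Finset.prod_le_prod (fun p _ => h0 p) hS
  have h3 : ∏ p ∈ Sᶜ, t p ≤ 1 := Finset.prod_le_one (fun p _ => h0 p) (fun p _ => h1 p)
  calc (∏ p ∈ S, t p) * ∏ p ∈ Sᶜ, t p ≤ lam ^ #S * 1 :=
        mul_le_mul h2 h3 (Finset.prod_nonneg fun p _ => h0 p) (pow_nonneg hl _)
    _ = lam ^ #S := mul_one _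

theorem factor_le (a : ZMod N) : ‖(1 : ℂ) + stdAddChar a‖ / 2 ≤ 1 := by
  have := norm_add_le (1 : ℂ) (stdAddChar a)
  rw [chr_norm, norm_one] at this
  linarith

/-- The correlation with products, in terms of pairs of rows. -/
theorem base1 (w : Fin k → Fin h → P → ZMod N) (f : (Fin k → Fin h) → ℂ) (g : Finset P → ℂ)
    (hf : ∀ x, ‖f x‖ ≤ 1) (hg : ∀ z, ‖g z‖ ≤ 1) :
    ‖∑ x, ∑ Y, stdAddChar (ph w x Y) * f x * g Y‖ ^ 2 ≤
      (4 : ℝ) ^ Fintype.card P * ∑ x, ∑ x', ∏ p, (‖(1 : ℂ) + stdAddChar (dl w x x' p)‖ / 2) := by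
  have h1 := csgen (fun (x : Fin k → Fin h) (Y : Finset P) => (stdAddChar (ph w x Y) : ℂ)) f g hf hg
  have h2 : ∀ x x' : Fin k → Fin h,
      ‖∑ Y : Finset P, (stdAddChar (ph w x Y) : ℂ) * (starRingEnd ℂ) (stdAddChar (ph w x' Y))‖ =
      (2 : ℝ) ^ Fintype.card P * ∏ p, (‖(1 : ℂ) + stdAddChar (dl w x x' p)‖ / 2) := by
    intro x x'
    have h3 : ∑ Y : Finset P, (stdAddChar (ph w x Y) : ℂ) * (starRingEnd ℂ) (stdAddChar (ph w x' Y)) =
        ∏ p, ((1 : ℂ) + stdAddChar (dl w x x' p)) := by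
      rw [Finset.prod_one_add, Finset.powerset_univ]
      refine Finset.sum_congr rfl fun Y _ => ?_
      rw [chr_conj, ← AddChar.map_add_eq_mul, ← chr_sum]
      congr 1
      simp only [ph, dl, Finset.sum_sub_distrib]
      ring
    rw [h3, norm_prod, Finset.prod_div_distrib, Finset.prod_const, Finset.card_univ]
    field_simp
  simp only [h2] at h1
  refine le_trans h1 (le_of_eq ?_)
  rw [Fintype.card_finset]
  simp only [← Finset.mul_sum]
  push_cast
  rw [← mul_assoc, ← mul_pow]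
  norm_num

/-- The correlation with products, in terms of pairs of columns. -/
theorem base2 (w : Fin k → Fin h → P → ZMod N) (f : (Fin k → Fin h) → ℂ) (g : Finset P → ℂ)
    (hf : ∀ x, ‖f x‖ ≤ 1) (hg : ∀ z, ‖g z‖ ≤ 1) :
    ‖∑ x, ∑ Y, stdAddChar (ph w x Y) * f x * g Y‖ ^ 2 ≤
      ((h : ℝ) ^ k) * ∑ Y : Finset P, ∑ Y' : Finset P, ∏ i : Fin k,
        ‖∑ a : Fin h, (stdAddChar (∑ p ∈ Y, w i a p - ∑ p ∈ Y', w i a p) : ℂ)‖ := by
  have h1 := csgen (fun (Y : Finset P) (x : Fin k → Fin h) => (stdAddChar (ph w x Y) : ℂ)) g f hg hf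
  have h2 : ∀ Y Y' : Finset P,
      ‖∑ x : Fin k → Fin h, (stdAddChar (ph w x Y) : ℂ) * (starRingEnd ℂ) (stdAddChar (ph w x Y'))‖ =
      ∏ i : Fin k, ‖∑ a : Fin h, (stdAddChar (∑ p ∈ Y, w i a p - ∑ p ∈ Y', w i a p) : ℂ)‖ := by
    intro Y Y'
    rw [← norm_prod, Finset.prod_univ_sum, Fintype.piFinset_univ]
    congr 1
    refine Finset.sum_congr rfl fun x _ => ?_
    rw [chr_conj, ← AddChar.map_add_eq_mul, ← chr_sum]
    congr 1
    simp only [ph, Finset.sum_sub_distrib]
    rw [Finset.sum_comm, Finset.sum_comm (s := Y')]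
    ring
  simp only [h2] at h1
  have h3 : ∑ x, ∑ Y, stdAddChar (ph w x Y) * f x * g Y =
      ∑ Y : Finset P, ∑ x : Fin k → Fin h, stdAddChar (ph w x Y) * g Y * f x := by
    rw [Finset.sum_comm]
    refine Finset.sum_congr rfl fun Y _ => Finset.sum_congr rfl fun x _ => by ring
  rw [h3]
  refine le_trans h1 (le_of_eq ?_)
  rw [Fintype.card_fun, Fintype.card_fin, Fintype.card_fin]
  push_cast
  rfl

/-- The target: if at most `c` values of the coordinate `i` are bad, for all pairs, the correlation is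
small. -/
theorem disc_target (w : Fin k → Fin h → P → ZMod N) (f : (Fin k → Fin h) → ℂ) (g : Finset P → ℂ)
    (hf : ∀ x, ‖f x‖ ≤ 1) (hg : ∀ z, ‖g z‖ ≤ 1) (lam : ℝ) (hl0 : 0 < lam) (hl1 : lam < 1)
    (hl : ∀ a : ZMod N, a ≠ 0 → ‖(1 : ℂ) + stdAddChar a‖ ≤ 2 * lam) (i : Fin k) (c r : ℕ) (m : ZMod N)
    (hm : (stdAddChar m : ℂ) = -1) (hh : 0 < h)
    (hB : ∀ x x' : Fin k → Fin h, #(univ.filter (fun a : Fin h =>
      #(univ.filter (fun p => dl w (Function.update x i a) x' p ≠ 0)) ≤ r ∧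
        ∀ p, dl w (Function.update x i a) x' p ≠ m)) ≤ c) :
    ‖∑ x, ∑ Y, stdAddChar (ph w x Y) * f x * g Y‖ ^ 2 ≤
      ((h : ℝ) ^ k * 2 ^ Fintype.card P) ^ 2 * ((c : ℝ) / h + lam ^ (r + 1)) := by
  have hh' : (0 : ℝ) < h := by exact_mod_cast hh
  refine le_trans (base1 w f g hf hg) ?_
  have h1 : ∀ x' : Fin k → Fin h,
      ∑ x, ∏ p, (‖(1 : ℂ) + stdAddChar (dl w x x' p)‖ / 2) ≤ (h : ℝ) ^ k * ((c : ℝ) / h + lam ^ (r + 1)) := by
    intro x'
    set B : Finset (Fin k → Fin h) := univ.filter (fun x =>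
      #(univ.filter (fun p => dl w x x' p ≠ 0)) ≤ r ∧ ∀ p, dl w x x' p ≠ m) with hBdef
    have h2 : #B * h ≤ c * Fintype.card (Fin k → Fin h) := by
      apply resample i B c
      intro x
      have := hB x x'
      refine le_trans (Finset.card_le_card ?_) this
      intro a ha
      rw [Finset.mem_filter] at ha ⊢
      rw [hBdef, Finset.mem_filter] at ha
      exact ⟨Finset.mem_univ _, ha.2.2⟩
    have h3 : (#B : ℝ) ≤ (c : ℝ) / h * (h : ℝ) ^ k := by
      have h4 : (#B : ℝ) * h ≤ c * (h : ℝ) ^ k := by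
        rw [Fintype.card_fun, Fintype.card_fin, Fintype.card_fin] at h2
        exact_mod_cast h2
      rw [div_mul_eq_mul_div, le_div_iff₀ hh']
      exact h4
    have h5 : ∀ x, ∏ p, (‖(1 : ℂ) + stdAddChar (dl w x x' p)‖ / 2) ≤
        (if x ∈ B then (1 : ℝ) else 0) + lam ^ (r + 1) := by
      intro x
      by_cases hx : x ∈ B
      · rw [if_pos hx]
        have := prod_le (t := fun p => ‖(1 : ℂ) + stdAddChar (dl w x x' p)‖ / 2) 1 zero_le_one
          (fun p => by positivity) (fun p => factor_le _) ∅ (by simp)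
        simp only [Finset.card_empty, pow_zero] at this
        have h6 : 0 < lam ^ (r + 1) := by positivity
        linarith
      · rw [if_neg hx, zero_add]
        rw [hBdef, Finset.mem_filter] at hx
        push Not at hx
        by_cases h7 : #(univ.filter (fun p => dl w x x' p ≠ 0)) ≤ r
        · obtain ⟨p, hp⟩ := hx (Finset.mem_univ _) h7
          rw [Finset.prod_eq_zero (Finset.mem_univ p)]
          · positivity
          · rw [hp, hm]
            simp
        · have h8 := prod_le (t := fun p => ‖(1 : ℂ) + stdAddChar (dl w x x' p)‖ / 2) lam hl0.le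
            (fun p => by positivity) (fun p => factor_le _)
            (univ.filter (fun p => dl w x x' p ≠ 0)) (fun p hp => by
              have := hl _ (Finset.mem_filter.mp hp).2
              linarith)
          refine le_trans h8 (pow_le_pow_of_le_one hl0.le hl1.le (by omega))
    calc ∑ x, ∏ p, (‖(1 : ℂ) + stdAddChar (dl w x x' p)‖ / 2)
        ≤ ∑ x : Fin k → Fin h, ((if x ∈ B then (1 : ℝ) else 0) + lam ^ (r + 1)) :=
          Finset.sum_le_sum fun x _ => h5 x
      _ = #B + (h : ℝ) ^ k * lam ^ (r + 1) := by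
          rw [Finset.sum_add_distrib, Finset.sum_const, Finset.card_univ, Fintype.card_fun,
            Fintype.card_fin, Fintype.card_fin, nsmul_eq_mul]
          simp
      _ ≤ (c : ℝ) / h * (h : ℝ) ^ k + (h : ℝ) ^ k * lam ^ (r + 1) := by linarith
      _ = _ := by ring
  have h9 : ∑ x, ∑ x', ∏ p, (‖(1 : ℂ) + stdAddChar (dl w x x' p)‖ / 2) ≤
      (h : ℝ) ^ k * ((h : ℝ) ^ k * ((c : ℝ) / h + lam ^ (r + 1))) := by
    rw [Finset.sum_comm]
    refine le_trans (Finset.sum_le_sum fun x' _ => h1 x') (le_of_eq ?_)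
    rw [Finset.sum_const, Finset.card_univ, Fintype.card_fun, Fintype.card_fin, Fintype.card_fin,
      nsmul_eq_mul]
    push_cast
    ring
  calc (4 : ℝ) ^ Fintype.card P * ∑ x, ∑ x', ∏ p, (‖(1 : ℂ) + stdAddChar (dl w x x' p)‖ / 2)
      ≤ (4 : ℝ) ^ Fintype.card P * ((h : ℝ) ^ k * ((h : ℝ) ^ k * ((c : ℝ) / h + lam ^ (r + 1)))) :=
        mul_le_mul_of_nonneg_left h9 (by positivity)
    _ = _ := by
        have : (4 : ℝ) ^ Fintype.card P = (2 ^ Fintype.card P) ^ 2 := by
          rw [← pow_mul, mul_comm, pow_mul]; norm_num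
        rw [this]
        ring

/-- Many columns with different windows: the correlation is small. -/
theorem disc_col {C V : Type} [Fintype C] [DecidableEq C] [Fintype V] [DecidableEq V]
    (w : Fin k → Fin h → C × V → ZMod N) (f : (Fin k → Fin h) → ℂ) (g : Finset (C × V) → ℂ)
    (hf : ∀ x, ‖f x‖ ≤ 1) (hg : ∀ z, ‖g z‖ ≤ 1) (lam : ℝ) (hl0 : 0 < lam) (hl1 : lam < 1)
    (hl : ∀ a : ZMod N, a ≠ 0 → ‖(1 : ℂ) + stdAddChar a‖ ≤ 2 * lam) (hh : 0 < h)
    (J : Finset C) (hJ0 : 1 ≤ #J)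
    (hJ : ∀ j ∈ J, ∃ i : Fin k, ∀ a b : Fin h, a ≠ b → ∃ y : V, w i a (j, y) ≠ w i b (j, y)) :
    ‖∑ x, ∑ Y, stdAddChar (ph w x Y) * f x * g Y‖ ^ 2 ≤
      ((h : ℝ) ^ k * 2 ^ Fintype.card (C × V)) ^ 2 * (1 / (h : ℝ) + lam ^ #J) := by
  have hh' : (0 : ℝ) < h := by exact_mod_cast hh
  have hJ' : (0 : ℝ) < #J := by exact_mod_cast hJ0
  refine le_trans (base1 w f g hf hg) ?_
  have h1 : ∀ x x' : Fin k → Fin h,
      ∏ p, (‖(1 : ℂ) + stdAddChar (dl w x x' p)‖ / 2) ≤
        (∑ j ∈ J, if (∀ y, dl w x x' (j, y) = 0) then (1 : ℝ) else 0) / #J + lam ^ #J := by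
    intro x x'
    set J' := J.filter (fun j => ¬ ∀ y, dl w x x' (j, y) = 0) with hJ'def
    have hch : ∀ j ∈ J', ∃ y, dl w x x' (j, y) ≠ 0 := by
      intro j hj
      have := (Finset.mem_filter.mp hj).2
      push Not at this
      exact this
    have h2' := prod_le (t := fun p => ‖(1 : ℂ) + stdAddChar (dl w x x' p)‖ / 2) lam hl0.le
      (fun p => by positivity) (fun p => factor_le _) (univ.filter (fun p => dl w x x' p ≠ 0))
      (fun p hp => by
        have := hl _ (Finset.mem_filter.mp hp).2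
        linarith)
    have hJS : #J' ≤ #(univ.filter (fun p : C × V => dl w x x' p ≠ 0)) := by
      refine le_trans (Finset.card_le_card ?_)
        (Finset.card_image_le (s := univ.filter (fun p : C × V => dl w x x' p ≠ 0)) (f := Prod.fst))
      intro j hj
      obtain ⟨y, hy⟩ := hch j hj
      rw [Finset.mem_image]
      exact ⟨(j, y), Finset.mem_filter.mpr ⟨Finset.mem_univ _, hy⟩, rfl⟩
    have h2 : ∏ p, (‖(1 : ℂ) + stdAddChar (dl w x x' p)‖ / 2) ≤ lam ^ #J' :=
      le_trans h2' (pow_le_pow_of_le_one hl0.le hl1.le hJS)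
    have h3 := convex lam hl0 hl1.le #J #J' hJ0 (Finset.card_le_card (Finset.filter_subset _ _))
    have h4 : ((#J - #J' : ℕ) : ℝ) = ∑ j ∈ J, if (∀ y, dl w x x' (j, y) = 0) then (1 : ℝ) else 0 := by
      rw [← Finset.sum_filter, Finset.sum_const, nsmul_eq_mul, mul_one]
      congr 1
      have := Finset.card_filter_add_card_filter_not (s := J) (fun j => ∀ y, dl w x x' (j, y) = 0)
      rw [← hJ'def] at this
      omega
    rw [h4] at h3
    exact le_trans h2 h3
  have h5 : ∀ j ∈ J, ∀ x' : Fin k → Fin h,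
      ∑ x, (if (∀ y, dl w x x' (j, y) = 0) then (1 : ℝ) else 0) ≤ (h : ℝ) ^ k / h := by
    intro j hj x'
    obtain ⟨i, hi⟩ := hJ j hj
    have h6 := resample i (univ.filter (fun x => ∀ y, dl w x x' (j, y) = 0)) 1 (by
      intro x
      rw [Finset.card_le_one]
      intro a ha b hb
      simp only [Finset.mem_filter, Finset.mem_univ, true_and] at ha hb
      by_contra hab
      obtain ⟨y, hy⟩ := hi a b hab
      apply hy
      have h7 := ha y
      have h8 := hb y
      simp only [dl] at h7 h8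
      have h9 : ∑ l, w l (Function.update x i a l) (j, y) = ∑ l, w l (Function.update x i b l) (j, y) := by
        rw [sub_eq_zero.mp h7, sub_eq_zero.mp h8]
      rw [← Finset.add_sum_erase _ _ (Finset.mem_univ i), ← Finset.add_sum_erase _ _ (Finset.mem_univ i)]
        at h9
      have h10 : ∀ c : Fin h, ∑ l ∈ univ.erase i, w l (Function.update x i c l) (j, y) =
          ∑ l ∈ univ.erase i, w l (x l) (j, y) := by
        intro c
        refine Finset.sum_congr rfl fun l hl => ?_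
        rw [Function.update_of_ne (Finset.ne_of_mem_erase hl)]
      rw [h10, h10, Function.update_self, Function.update_self] at h9
      exact add_right_cancel h9)
    rw [one_mul, Fintype.card_fun, Fintype.card_fin, Fintype.card_fin] at h6
    rw [← Finset.sum_filter, Finset.sum_const, nsmul_eq_mul, mul_one, le_div_iff₀ hh']
    exact_mod_cast h6
  have h11 : ∑ x, ∑ x', ∏ p, (‖(1 : ℂ) + stdAddChar (dl w x x' p)‖ / 2) ≤
      (h : ℝ) ^ k * ((h : ℝ) ^ k * (1 / (h : ℝ) + lam ^ #J)) := by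
    rw [Finset.sum_comm]
    have h12 : ∀ x' : Fin k → Fin h, ∑ x, ∏ p, (‖(1 : ℂ) + stdAddChar (dl w x x' p)‖ / 2) ≤
        (h : ℝ) ^ k * (1 / (h : ℝ) + lam ^ #J) := by
      intro x'
      calc ∑ x, ∏ p, (‖(1 : ℂ) + stdAddChar (dl w x x' p)‖ / 2)
          ≤ ∑ x, ((∑ j ∈ J, if (∀ y, dl w x x' (j, y) = 0) then (1 : ℝ) else 0) / #J + lam ^ #J) :=
            Finset.sum_le_sum fun x _ => h1 x x'
        _ = (∑ j ∈ J, ∑ x, if (∀ y, dl w x x' (j, y) = 0) then (1 : ℝ) else 0) / #J +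
              (h : ℝ) ^ k * lam ^ #J := by
            rw [Finset.sum_add_distrib, ← Finset.sum_div, Finset.sum_comm, Finset.sum_const,
              Finset.card_univ, Fintype.card_fun, Fintype.card_fin, Fintype.card_fin, nsmul_eq_mul]
            push_cast
            rfl
        _ ≤ (∑ _j ∈ J, (h : ℝ) ^ k / h) / #J + (h : ℝ) ^ k * lam ^ #J := by
            gcongr with j hj
            exact h5 j hj x'
        _ = _ := by
            rw [Finset.sum_const, nsmul_eq_mul]
            field_simp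
    refine le_trans (Finset.sum_le_sum fun x' _ => h12 x') (le_of_eq ?_)
    rw [Finset.sum_const, Finset.card_univ, Fintype.card_fun, Fintype.card_fin, Fintype.card_fin,
      nsmul_eq_mul]
    push_cast
    ring
  calc (4 : ℝ) ^ Fintype.card (C × V) * ∑ x, ∑ x', ∏ p, (‖(1 : ℂ) + stdAddChar (dl w x x' p)‖ / 2)
      ≤ (4 : ℝ) ^ Fintype.card (C × V) * ((h : ℝ) ^ k * ((h : ℝ) ^ k * (1 / (h : ℝ) + lam ^ #J))) :=
        mul_le_mul_of_nonneg_left h11 (by positivity)
    _ = _ := by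
        have : (4 : ℝ) ^ Fintype.card (C × V) = (2 ^ Fintype.card (C × V)) ^ 2 := by
          rw [← pow_mul, mul_comm, pow_mul]; norm_num
        rw [this]
        ring

/-- Many rows with different windows: the correlation is small. -/
theorem disc_row (w : Fin k → Fin h → P → ZMod N) (f : (Fin k → Fin h) → ℂ) (g : Finset P → ℂ)
    (hf : ∀ x, ‖f x‖ ≤ 1) (hg : ∀ z, ‖g z‖ ≤ 1) (lam : ℝ) (hl0 : 0 < lam) (hl1 : lam < 1)
    (hl : ∀ a b : ZMod N, a ≠ b → ‖(stdAddChar a : ℂ) + stdAddChar b‖ ≤ 2 * lam) (hh : 2 ≤ h)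
    (hN : 2 ≤ N) (κ : ℕ) (hκ : N ^ κ ≤ h) (I : Finset (Fin k)) (hI0 : 1 ≤ #I)
    (hI : ∀ i ∈ I, ∀ a b : Fin h, a ≠ b → ∃ p : P, w i a p ≠ w i b p) :
    ‖∑ x, ∑ Y, stdAddChar (ph w x Y) * f x * g Y‖ ^ 2 ≤
      ((h : ℝ) ^ k * 2 ^ Fintype.card P) ^ 2 *
        (1 / (2 : ℝ) ^ κ + (1 - 2 * (1 - lam) / h) ^ #I) := by
  have hh' : (0 : ℝ) < h := by exact_mod_cast (by omega : 0 < h)
  have hh2 : (2 : ℝ) ≤ h := by exact_mod_cast hh
  have hI' : (0 : ℝ) < #I := by exact_mod_cast hI0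
  set μ : ℝ := 1 - 2 * (1 - lam) / h with hμ
  have hq : 2 * (1 - lam) / h ≤ (1 - lam) := by
    rw [div_le_iff₀ hh']
    nlinarith
  have hq0 : 0 < 2 * (1 - lam) / h := div_pos (by linarith) hh'
  have hμ0 : 0 < μ := by rw [hμ]; linarith
  have hμ1 : μ ≤ 1 := by rw [hμ]; linarith
  set σ : Finset P → Finset P → Fin k → Fin h → ZMod N :=
    fun Y Y' i a => ∑ p ∈ Y, w i a p - ∑ p ∈ Y', w i a p with hσ
  have hcst : ∀ (s : Fin h → ZMod N), ¬ (∀ a b, s a = s b) →
      ‖∑ a : Fin h, (stdAddChar (s a) : ℂ)‖ ≤ h * μ := by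
    intro s hs
    push Not at hs
    obtain ⟨a, b, hab⟩ := hs
    have hne : a ≠ b := fun h => hab (by rw [h])
    rw [← Finset.add_sum_erase _ _ (Finset.mem_univ a),
      ← Finset.add_sum_erase (univ.erase a) _ (Finset.mem_erase.mpr ⟨hne.symm, Finset.mem_univ b⟩),
      ← add_assoc]
    refine le_trans (norm_add_le _ _) ?_
    have h1 := hl _ _ hab
    have h2 : ‖∑ x ∈ (univ.erase a).erase b, (stdAddChar (s x) : ℂ)‖ ≤ (h : ℝ) - 2 := by
      refine le_trans (norm_sum_le _ _) (le_of_eq ?_)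
      simp only [chr_norm, Finset.sum_const, nsmul_eq_mul, mul_one]
      rw [Finset.card_erase_of_mem (Finset.mem_erase.mpr ⟨hne.symm, Finset.mem_univ b⟩),
        Finset.card_erase_of_mem (Finset.mem_univ a), Finset.card_univ, Fintype.card_fin,
        Nat.sub_sub, Nat.cast_sub hh]
      norm_num
    have h3 : (h : ℝ) * μ = h - 2 * (1 - lam) := by
      rw [hμ, mul_sub, mul_one, mul_div_cancel₀ _ hh'.ne']
    rw [h3]
    linarith
  refine le_trans (base2 w f g hf hg) ?_
  have h1 : ∀ Y Y' : Finset P,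
      ∏ i : Fin k, ‖∑ a : Fin h, (stdAddChar (∑ p ∈ Y, w i a p - ∑ p ∈ Y', w i a p) : ℂ)‖ ≤
        (h : ℝ) ^ k * ((∑ i ∈ I, if (∀ a b, σ Y Y' i a = σ Y Y' i b) then (1 : ℝ) else 0) / #I +
          μ ^ #I) := by
    intro Y Y'
    set I' := I.filter (fun i => ¬ ∀ a b, σ Y Y' i a = σ Y Y' i b) with hI'def
    have h2 := prod_le (P := Fin k) (t := fun i => ‖∑ a : Fin h, (stdAddChar (σ Y Y' i a) : ℂ)‖ / h)
      μ hμ0.le (fun i => by positivity) (fun i => by
        rw [div_le_one hh']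
        refine le_trans (norm_sum_le _ _) (le_of_eq ?_)
        simp only [chr_norm, Finset.sum_const, nsmul_eq_mul, mul_one, Finset.card_univ,
          Fintype.card_fin]) I' (fun i hi => by
        have := hcst (σ Y Y' i) (Finset.mem_filter.mp hi).2
        rw [div_le_iff₀ hh']
        linarith)
    have h3 := convex μ hμ0 hμ1 #I #I' hI0 (Finset.card_le_card (Finset.filter_subset _ _))
    have h4 : ((#I - #I' : ℕ) : ℝ) = ∑ i ∈ I, if (∀ a b, σ Y Y' i a = σ Y Y' i b) then (1 : ℝ) else 0 := by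
      rw [← Finset.sum_filter, Finset.sum_const, nsmul_eq_mul, mul_one]
      congr 1
      have := Finset.card_filter_add_card_filter_not (s := I)
        (fun i => ∀ a b, σ Y Y' i a = σ Y Y' i b)
      rw [← hI'def] at this
      omega
    rw [h4] at h3
    have h5 := le_trans h2 h3
    rw [Finset.prod_div_distrib, Finset.prod_const, Finset.card_univ, Fintype.card_fin,
      div_le_iff₀ (by positivity)] at h5
    linarith
  have h6 : ∀ i ∈ I, ∑ Y : Finset P, ∑ Y' : Finset P,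
      (if (∀ a b, σ Y Y' i a = σ Y Y' i b) then (1 : ℝ) else 0) ≤ (4 : ℝ) ^ Fintype.card P / 2 ^ κ := by
    intro i hi
    rw [Finset.sum_comm]
    have h7 : ∀ Y' : Finset P, ∑ Y : Finset P,
        (if (∀ a b, σ Y Y' i a = σ Y Y' i b) then (1 : ℝ) else 0) ≤ (2 : ℝ) ^ Fintype.card P / 2 ^ κ := by
      intro Y'
      have h8 := good_card (fun a => w i a) (fun a => - ∑ p ∈ Y', w i a p) (univ : Finset P) κ
        (univ : Finset (Fin h)) (by
          intro a _ b _ hab
          obtain ⟨p, hp⟩ := hI i hi a b hab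
          exact ⟨p, Finset.mem_univ _, hp⟩) (by
          rw [ZMod.card, Finset.card_univ, Fintype.card_fin]; exact hκ) (by rw [ZMod.card]; exact hN)
      rw [← Finset.sum_filter, Finset.sum_const, nsmul_eq_mul, mul_one, le_div_iff₀ (by positivity)]
      have h9 : (univ : Finset (Finset P)).filter (fun Y => ∀ a b, σ Y Y' i a = σ Y Y' i b) =
          Good (fun a => w i a) (fun a => - ∑ p ∈ Y', w i a p) (univ : Finset P)
            (univ : Finset (Fin h)) := by
        ext Y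
        simp only [Good, Finset.mem_filter, Finset.mem_univ, true_and, Finset.mem_powerset,
          Finset.subset_univ, forall_true_left, hσ, sub_eq_add_neg]
      rw [h9]
      rw [Finset.card_univ] at h8
      have h10 : ((2 ^ κ * #(Good (fun a => w i a) (fun a => - ∑ p ∈ Y', w i a p) (univ : Finset P)
            (univ : Finset (Fin h))) : ℕ) : ℝ) ≤ ((2 ^ Fintype.card P : ℕ) : ℝ) := by exact_mod_cast h8
      push_cast at h10
      linarith
    refine le_trans (Finset.sum_le_sum fun Y' _ => h7 Y') (le_of_eq ?_)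
    rw [Finset.sum_const, Finset.card_univ, Fintype.card_finset, nsmul_eq_mul]
    push_cast
    have : (4 : ℝ) ^ Fintype.card P = 2 ^ Fintype.card P * 2 ^ Fintype.card P := by
      rw [← mul_pow]; norm_num
    rw [this]
    ring
  have h11 : ∑ Y : Finset P, ∑ Y' : Finset P, ∏ i : Fin k,
        ‖∑ a : Fin h, (stdAddChar (∑ p ∈ Y, w i a p - ∑ p ∈ Y', w i a p) : ℂ)‖ ≤
      (h : ℝ) ^ k * ((4 : ℝ) ^ Fintype.card P * (1 / (2 : ℝ) ^ κ + μ ^ #I)) := by
    calc _ ≤ ∑ Y : Finset P, ∑ Y' : Finset P, (h : ℝ) ^ k *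
          ((∑ i ∈ I, if (∀ a b, σ Y Y' i a = σ Y Y' i b) then (1 : ℝ) else 0) / #I + μ ^ #I) :=
          Finset.sum_le_sum fun Y _ => Finset.sum_le_sum fun Y' _ => h1 Y Y'
      _ = (h : ℝ) ^ k * ((∑ i ∈ I, ∑ Y : Finset P, ∑ Y' : Finset P,
            if (∀ a b, σ Y Y' i a = σ Y Y' i b) then (1 : ℝ) else 0) / #I +
              (4 : ℝ) ^ Fintype.card P * μ ^ #I) := by
          have e1 : (4 : ℝ) ^ Fintype.card P = 2 ^ Fintype.card P * 2 ^ Fintype.card P := by
            rw [← mul_pow]; norm_num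
          simp only [← Finset.mul_sum, Finset.sum_add_distrib, Finset.sum_const, Finset.card_univ,
            Fintype.card_finset, nsmul_eq_mul, ← Finset.sum_div]
          have e2 : ∑ Y : Finset P, ∑ Y' : Finset P, ∑ i ∈ I,
              (if (∀ a b, σ Y Y' i a = σ Y Y' i b) then (1 : ℝ) else 0) =
              ∑ i ∈ I, ∑ Y : Finset P, ∑ Y' : Finset P,
                (if (∀ a b, σ Y Y' i a = σ Y Y' i b) then (1 : ℝ) else 0) := by
            exact (Finset.sum_congr rfl fun Y _ => Finset.sum_comm).trans Finset.sum_comm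
          rw [e2, e1]
          push_cast
          ring
      _ ≤ (h : ℝ) ^ k * ((∑ _i ∈ I, (4 : ℝ) ^ Fintype.card P / 2 ^ κ) / #I +
              (4 : ℝ) ^ Fintype.card P * μ ^ #I) := by
          gcongr with i hi
          exact h6 i hi
      _ = _ := by
          rw [Finset.sum_const, nsmul_eq_mul]
          field_simp
  calc _ ≤ (h : ℝ) ^ k * ((h : ℝ) ^ k * ((4 : ℝ) ^ Fintype.card P * (1 / (2 : ℝ) ^ κ + μ ^ #I))) :=
        mul_le_mul_of_nonneg_left h11 (by positivity)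
    _ = _ := by
        have : (4 : ℝ) ^ Fintype.card P = (2 ^ Fintype.card P) ^ 2 := by
          rw [← pow_mul, mul_comm, pow_mul]; norm_num
        rw [this]
        ring

end Pool.Agent.N381.ST
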