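import Pool.Agent.N381.ST.Chr

set_option autoImplicit false

/-!
# Decision trees which read cells
-/

namespace Pool.Agent.N381.ST

open Finset ZMod

/-- Adaptive query algorithms: trees of depth `t`; at a node a cell is read, whose content, an
integer modulo `M`, determines the next step; the leaves hold the output. -/
def Tree (M : ℕ) (ι : Type) : ℕ → Type
  | 0 => Bool
  | t + 1 => ι × (ZMod M → Tree M ι t)

/-- The output of a query algorithm on the cells with contents `x`. -/
def Tree.eval {M : ℕ} {ι : Type} : (t : ℕ) → Tree M ι t → (ι → ZMod M) → Bool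
  | 0, b, _ => b
  | t + 1, T, x => Tree.eval t (T.2 (x T.1)) x

/-- The sign of a bit. -/
def sg (b : Bool) : ℂ := if b then -1 else 1

theorem sg_norm (b : Bool) : ‖sg b‖ = 1 := by
  cases b <;> simp [sg]

/-- If a function is uncorrelated with all characters of the cells, it is uncorrelated with the output of
a query algorithm. -/
theorem tree_bound {M : ℕ} [NeZero M] {ι X : Type} [Fintype ι] [DecidableEq ι] [Fintype X]
    (x : X → ι → ZMod M) (q : ℝ) (hq : 0 ≤ q) (t : ℕ) : ∀ (T : Tree M ι t) (u : X → ℂ),
    (∀ k : ι → ZMod M, ‖∑ a, u a * stdAddChar (∑ c, k c * x a c)‖ ≤ q) →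
    ‖∑ a, u a * sg (Tree.eval t T (x a))‖ ≤ (M : ℝ) ^ t * q := by
  induction t with
  | zero =>
    intro T u hu
    have h1 := hu 0
    simp only [Pi.zero_apply, zero_mul, Finset.sum_const_zero, AddChar.map_zero_eq_one, mul_one] at h1
    have h0 : ∑ a, u a * sg (Tree.eval 0 T (x a)) = (∑ a, u a) * sg (show Bool from T) := by
      rw [Finset.sum_mul]
      rfl
    rw [h0, norm_mul, sg_norm, mul_one, pow_zero, one_mul]
    exact h1
  | succ t ih =>
    intro T u hu
    have hM : (M : ℂ) ≠ 0 := by exact_mod_cast NeZero.ne M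
    have hM' : (0 : ℝ) < M := by exact_mod_cast Nat.pos_of_ne_zero (NeZero.ne M)
    have h1 : ∑ a, u a * sg (Tree.eval (t + 1) T (x a)) =
        ∑ v : ZMod M, (1 / (M : ℂ)) * ∑ κ : ZMod M,
          ∑ a, (u a * stdAddChar (κ * (x a T.1 - v))) * sg (Tree.eval t (T.2 v) (x a)) := by
      have h2 : ∀ a, u a * sg (Tree.eval (t + 1) T (x a)) =
          ∑ v : ZMod M, u a * ((1 / (M : ℂ)) * ∑ κ : ZMod M, stdAddChar (κ * (x a T.1 - v))) *
            sg (Tree.eval t (T.2 v) (x a)) := by
        intro a
        simp only [← indicator]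
        rw [Finset.sum_eq_single (x a T.1)]
        · simp [Tree.eval]
        · intro v _ hv
          rw [if_neg (Ne.symm hv)]
          ring
        · intro h
          exact absurd (Finset.mem_univ _) h
      simp only [h2]
      rw [Finset.sum_comm]
      refine Finset.sum_congr rfl fun v _ => ?_
      rw [Finset.sum_comm (s := (univ : Finset (ZMod M)))]
      rw [Finset.mul_sum]
      refine Finset.sum_congr rfl fun a _ => ?_
      rw [Finset.mul_sum, Finset.mul_sum, Finset.mul_sum, Finset.sum_mul]
      refine Finset.sum_congr rfl fun κ _ => ?_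
      ring
    rw [h1]
    have h3 : ∀ (v κ : ZMod M), ‖∑ a, (u a * stdAddChar (κ * (x a T.1 - v))) *
        sg (Tree.eval t (T.2 v) (x a))‖ ≤ (M : ℝ) ^ t * q := by
      intro v κ
      apply ih (T.2 v) (fun a => u a * stdAddChar (κ * (x a T.1 - v)))
      intro k
      have h4 := hu (fun c => k c + if c = T.1 then κ else 0)
      have h5 : ∑ a, u a * stdAddChar (κ * (x a T.1 - v)) * stdAddChar (∑ c, k c * x a c) =
          stdAddChar (-(κ * v)) * ∑ a, u a * stdAddChar (∑ c, (k c + if c = T.1 then κ else 0) * x a c) := by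
        rw [Finset.mul_sum]
        refine Finset.sum_congr rfl fun a _ => ?_
        have h6 : ∑ c, (k c + if c = T.1 then κ else 0) * x a c =
            ∑ c, k c * x a c + κ * x a T.1 := by
          simp only [add_mul, Finset.sum_add_distrib]
          congr 1
          rw [Finset.sum_eq_single T.1]
          · simp
          · intro c _ hc
            rw [if_neg hc, zero_mul]
          · intro h
            exact absurd (Finset.mem_univ _) h
        rw [h6, AddChar.map_add_eq_mul]
        have h7 : (stdAddChar (κ * (x a T.1 - v)) : ℂ) =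
            stdAddChar (κ * x a T.1) * stdAddChar (-(κ * v)) := by
          rw [← AddChar.map_add_eq_mul]
          congr 1
          ring
        rw [h7]
        ring
      rw [h5, norm_mul, chr_norm, one_mul]
      exact h4
    refine le_trans (norm_sum_le _ _) ?_
    calc ∑ v : ZMod M, ‖(1 / (M : ℂ)) * ∑ κ : ZMod M,
          ∑ a, (u a * stdAddChar (κ * (x a T.1 - v))) * sg (Tree.eval t (T.2 v) (x a))‖
        ≤ ∑ _v : ZMod M, (M : ℝ) ^ t * q := by
          refine Finset.sum_le_sum fun v _ => ?_
          rw [norm_mul]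
          have h8 : ‖(1 / (M : ℂ))‖ = 1 / (M : ℝ) := by simp
          rw [h8]
          calc 1 / (M : ℝ) * ‖∑ κ : ZMod M, ∑ a, (u a * stdAddChar (κ * (x a T.1 - v))) *
                sg (Tree.eval t (T.2 v) (x a))‖
              ≤ 1 / (M : ℝ) * ∑ κ : ZMod M, ‖∑ a, (u a * stdAddChar (κ * (x a T.1 - v))) *
                sg (Tree.eval t (T.2 v) (x a))‖ :=
                mul_le_mul_of_nonneg_left (norm_sum_le _ _) (by positivity)
            _ ≤ 1 / (M : ℝ) * ∑ _κ : ZMod M, (M : ℝ) ^ t * q :=
                mul_le_mul_of_nonneg_left (Finset.sum_le_sum fun κ _ => h3 v κ) (by positivity)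
            _ = (M : ℝ) ^ t * q := by
                rw [Finset.sum_const, Finset.card_univ, ZMod.card, nsmul_eq_mul]
                field_simp
      _ = (M : ℝ) ^ (t + 1) * q := by
          rw [Finset.sum_const, Finset.card_univ, ZMod.card, nsmul_eq_mul]
          ring

end Pool.Agent.N381.ST
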