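import Mathlib

set_option autoImplicit false

/-!
# Counting functionals with sparse witnesses
-/

namespace Pool.Agent.N381.ST

open Finset

variable {Q K G : Type} [DecidableEq Q] [AddCommGroup K] [Fintype K] [DecidableEq K]
  [AddCommGroup G] [DecidableEq G]

/-- The values of the functionals `L π`, `π ∈ B`, (zero outside of `B`) at the point `x`. -/
def vals (L : Q → K → G) (B : Finset Q) (x : K) : Q → G := fun π => if π ∈ B then L π x else 0

variable [Fintype Q]

/-- If every functional of `B` has a point where it does not vanish and at which at most `ρ` functionals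
of `B` do not vanish, then the functionals of `B` take at least `2 ^ (|B| / ρ)` values. -/
theorem count (L : Q → K → G) (hL : ∀ π x y, L π (x + y) = L π x + L π y) (ρ : ℕ) :
    ∀ (n : ℕ) (B : Finset Q), #B ≤ n →
    (∀ π ∈ B, ∃ x : K, L π x ≠ 0 ∧ #(B.filter (fun π' => L π' x ≠ 0)) ≤ ρ) →
    2 ^ #B ≤ #(univ.image (vals L B)) ^ ρ := by
  intro n
  induction n with
  | zero =>
    intro B hB _
    have : #B = 0 := by omega
    rw [this, pow_zero]
    apply Nat.one_le_pow
    rw [Finset.card_pos]
    exact ⟨vals L B 0, Finset.mem_image_of_mem _ (Finset.mem_univ _)⟩
  | succ n ih =>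
    intro B hB hw
    rcases Finset.eq_empty_or_nonempty B with h | h
    · subst h
      rw [Finset.card_empty, pow_zero]
      apply Nat.one_le_pow
      rw [Finset.card_pos]
      exact ⟨vals L ∅ 0, Finset.mem_image_of_mem _ (Finset.mem_univ _)⟩
    · obtain ⟨π, hπ⟩ := h
      obtain ⟨x, hx, hρ⟩ := hw π hπ
      set B' := B.filter (fun π' => ¬ (L π' x ≠ 0)) with hB'
      have hB'B : B' ⊆ B := Finset.filter_subset _ _
      have hcard : #(B.filter (fun π' => L π' x ≠ 0)) + #B' = #B :=
        Finset.card_filter_add_card_filter_not _
      have hpos : 0 < #(B.filter (fun π' => L π' x ≠ 0)) := by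
        rw [Finset.card_pos]
        exact ⟨π, Finset.mem_filter.mpr ⟨hπ, hx⟩⟩
      have h1 := ih B' (by omega) (by
        intro π' hπ'
        obtain ⟨y, hy, hy2⟩ := hw π' (hB'B hπ')
        exact ⟨y, hy, le_trans (Finset.card_le_card (Finset.filter_subset_filter _ hB'B)) hy2⟩)
      -- the projection
      have h2 : 2 * #(univ.image (vals L B')) ≤ #(univ.image (vals L B)) := by
        set pr : (Q → G) → (Q → G) := fun f π => if π ∈ B' then f π else 0 with hpr
        have hpv : ∀ y, pr (vals L B y) = vals L B' y := by
          intro y
          funext π'
          simp only [hpr, vals]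
          by_cases h : π' ∈ B'
          · rw [if_pos h, if_pos (hB'B h), if_pos h]
          · rw [if_neg h, if_neg h]
        have hfib : ∀ f ∈ univ.image (vals L B'),
            2 ≤ #((univ.image (vals L B)).filter (fun g => pr g = f)) := by
          intro f hf
          rw [Finset.mem_image] at hf
          obtain ⟨y, _, rfl⟩ := hf
          have hsub : ({vals L B y, vals L B (y + x)} : Finset (Q → G)) ⊆
              (univ.image (vals L B)).filter (fun g => pr g = vals L B' y) := by
            intro g hg
            rw [Finset.mem_insert, Finset.mem_singleton] at hg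
            rw [Finset.mem_filter]
            rcases hg with h | h
            · subst h
              exact ⟨Finset.mem_image_of_mem _ (Finset.mem_univ _), hpv y⟩
            · subst h
              refine ⟨Finset.mem_image_of_mem _ (Finset.mem_univ _), ?_⟩
              rw [hpv]
              funext π'
              simp only [vals]
              by_cases h : π' ∈ B'
              · rw [if_pos h, if_pos h, hL]
                have : L π' x = 0 := by
                  have := (Finset.mem_filter.mp h).2
                  push Not at this
                  exact this
                rw [this, add_zero]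
              · rw [if_neg h, if_neg h]
          have hne : vals L B y ≠ vals L B (y + x) := by
            intro h
            have := congrFun h π
            simp only [vals, if_pos hπ, hL] at this
            exact hx (by simpa using this.symm)
          calc 2 = #({vals L B y, vals L B (y + x)} : Finset (Q → G)) := by
                rw [Finset.card_pair hne]
            _ ≤ _ := Finset.card_le_card hsub
        have hmaps : ∀ g ∈ univ.image (vals L B), pr g ∈ univ.image (vals L B') := by
          intro g hg
          rw [Finset.mem_image] at hg
          obtain ⟨y, _, rfl⟩ := hg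
          rw [hpv]
          exact Finset.mem_image_of_mem _ (Finset.mem_univ _)
        rw [Finset.card_eq_sum_card_fiberwise hmaps]
        calc 2 * #(univ.image (vals L B')) = ∑ _f ∈ univ.image (vals L B'), 2 := by
              rw [Finset.sum_const, smul_eq_mul, mul_comm]
          _ ≤ _ := Finset.sum_le_sum hfib
      calc 2 ^ #B ≤ 2 ^ (ρ + #B') := Nat.pow_le_pow_right (by omega) (by omega)
        _ = 2 ^ ρ * 2 ^ #B' := by rw [pow_add]
        _ ≤ 2 ^ ρ * #(univ.image (vals L B')) ^ ρ := Nat.mul_le_mul_left _ h1
        _ = (2 * #(univ.image (vals L B'))) ^ ρ := by rw [mul_pow]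
        _ ≤ _ := Nat.pow_le_pow_left h2 ρ

end Pool.Agent.N381.ST
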