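import Mathlib

set_option autoImplicit false

/-!
# Choice of the parameters
-/

namespace Pool.Agent.N381.ST

open Finset

/-- `lam ^ b ≤ 1 / 2` for some `b ≥ 1`. -/
theorem exists_b (lam : ℝ) (hl0 : 0 < lam) (hl1 : lam < 1) : ∃ b : ℕ, 1 ≤ b ∧ lam ^ b ≤ 1 / 2 := by
  obtain ⟨b, hb⟩ := exists_pow_lt_of_lt_one (by norm_num : (0 : ℝ) < 1 / 2) hl1
  refine ⟨b + 1, by omega, ?_⟩
  calc lam ^ (b + 1) ≤ lam ^ b := pow_le_pow_of_le_one hl0.le hl1.le (by omega)
    _ ≤ 1 / 2 := hb.le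

/-- `(1 - x / h) ^ (b h) ≤ 1 / 2` for some `b ≥ 1` and all `h`. -/
theorem exists_b' (x : ℝ) (hx0 : 0 < x) (hx : x ≤ 2) : ∃ b : ℕ, 1 ≤ b ∧ ∀ h : ℕ, 2 ≤ h →
    (1 - x / h) ^ (b * h) ≤ 1 / 2 := by
  obtain ⟨b, hb⟩ := exists_nat_gt (1 / x)
  have hb0 : (0 : ℝ) < b := lt_trans (by positivity) hb
  refine ⟨b, by exact_mod_cast hb0, ?_⟩
  intro h hh
  have hh0 : (0 : ℝ) < h := by exact_mod_cast (by omega : 0 < h)
  have hh2 : (2 : ℝ) ≤ h := by exact_mod_cast hh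
  have h1 : 0 ≤ 1 - x / h := by
    rw [sub_nonneg, div_le_one hh0]
    linarith
  have h2 : 1 - x / h ≤ Real.exp (-(x / h)) := by
    have := Real.add_one_le_exp (-(x / h))
    linarith
  have hbx : 1 ≤ x * b := by
    rw [div_lt_iff₀ hx0] at hb
    linarith
  calc (1 - x / h) ^ (b * h) ≤ Real.exp (-(x / h)) ^ (b * h) := pow_le_pow_left₀ h1 h2 _
    _ = Real.exp (-(x * b)) := by
        rw [← Real.exp_nat_mul]
        congr 1
        push_cast
        field_simp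
    _ ≤ Real.exp (-1) := Real.exp_le_exp.mpr (by linarith)
    _ ≤ 1 / 2 := by
        rw [Real.exp_neg, inv_eq_one_div]
        have := Real.add_one_le_exp (1 : ℝ)
        apply one_div_le_one_div_of_le <;> linarith

theorem two_mul_le_two_pow (M : ℕ) (hM : 1 ≤ M) : 2 * M ≤ 2 ^ M := by
  induction M with
  | zero => omega
  | succ M ih =>
    rcases Nat.eq_zero_or_pos M with h | h
    · subst h; norm_num
    · have := ih h
      rw [pow_succ]
      omega

/-- The parameters. -/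
theorem params (lam : ℝ) (hl0 : 0 < lam) (hl1 : lam < 1) (M : ℕ) (hM : 1 ≤ M) : ∃ K : ℕ, 1 ≤ K ∧
    ∀ q : ℕ, ∃ h v r R R' κ : ℕ, 2 ≤ h ∧ h ^ 2 * (2 * r + 6) ≤ v ∧ (2 * M) ^ κ ≤ h ∧
      ((r : ℝ) + 1) / h + lam ^ (r + 1) ≤ ((1 / 2 : ℝ) ^ q) ^ 2 ∧
      1 / (h : ℝ) + lam ^ R ≤ ((1 / 2 : ℝ) ^ q) ^ 2 ∧
      1 / (2 : ℝ) ^ κ + (1 - 2 * (1 - lam) / h) ^ R' ≤ ((1 / 2 : ℝ) ^ q) ^ 2 ∧
      4 * v ^ 2 * (M * (R * R' + 1)) ≤ K * (2 ^ q) ^ (20 * M + 4) := by
  obtain ⟨b, hb1, hb⟩ := exists_b lam hl0 hl1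
  obtain ⟨b', hb1', hb'⟩ := exists_b' (2 * (1 - lam)) (by linarith) (by linarith)
  set K1 := 2 ^ (M * (2 + b)) with hK1
  have hK1' : 1 ≤ K1 := Nat.one_le_two_pow
  refine ⟨4608 * M * b ^ 3 * b' * K1 ^ 5, ?_, ?_⟩
  · have : 0 < 4608 * M * b ^ 3 * b' * K1 ^ 5 := by positivity
    exact this
  · intro q
    set Q := 2 * q + 1 with hQ
    set κ := 2 * Q + b with hκ
    set h := (2 * M) ^ κ with hh
    set R := b * Q with hR
    have hR1 : 1 ≤ R := Nat.mul_pos hb1 (by omega)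
    have hpow : (2 : ℕ) ^ κ ≤ h := Nat.pow_le_pow_left (by omega) κ
    have hκ1 : 1 ≤ κ := by omega
    have hh2 : 2 ≤ h := le_trans (by
      calc 2 = 2 ^ 1 := by norm_num
        _ ≤ 2 ^ κ := Nat.pow_le_pow_right (by norm_num) hκ1) hpow
    have hh0 : (0 : ℝ) < h := by exact_mod_cast (by omega : 0 < h)
    have hhalf : ((1 / 2 : ℝ) ^ q) ^ 2 = 2 * (1 / 2 : ℝ) ^ Q := by
      rw [← pow_mul, hQ, pow_succ, Nat.mul_comm q 2]
      ring
    have hRh : (R : ℝ) / h ≤ (1 / 2 : ℝ) ^ Q := by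
      rw [div_le_iff₀ hh0, one_div, inv_pow, ← div_eq_inv_mul, le_div_iff₀ (by positivity)]
      have h1 : b * Q * 2 ^ Q ≤ h := by
        calc b * Q * 2 ^ Q ≤ 2 ^ b * 2 ^ Q * 2 ^ Q := by
              gcongr
              · exact (Nat.lt_two_pow_self).le
              · exact (Nat.lt_two_pow_self).le
          _ = 2 ^ κ := by rw [hκ]; ring
          _ ≤ h := hpow
      exact_mod_cast h1
    have hlamR : lam ^ R ≤ (1 / 2 : ℝ) ^ Q := by
      rw [hR, pow_mul]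
      exact pow_le_pow_left₀ (by positivity) hb Q
    refine ⟨h, h ^ 2 * (2 * (R - 1) + 6), R - 1, R, b' * h * Q, κ, hh2, le_rfl, le_rfl, ?_, ?_, ?_, ?_⟩
    · rw [hhalf, Nat.cast_sub hR1, Nat.sub_add_cancel hR1]
      push_cast
      rw [sub_add_cancel]
      linarith
    · rw [hhalf]
      have : 1 / (h : ℝ) ≤ (R : ℝ) / h := by
        gcongr
        exact_mod_cast hR1
      linarith
    · rw [hhalf]
      have h1 : 1 / (2 : ℝ) ^ κ ≤ (1 / 2 : ℝ) ^ Q := by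
        rw [one_div_pow]
        apply one_div_le_one_div_of_le (by positivity)
        exact pow_le_pow_right₀ (by norm_num) (by omega)
      have h2 : (1 - 2 * (1 - lam) / h) ^ (b' * h * Q) ≤ (1 / 2 : ℝ) ^ Q := by
        rw [pow_mul]
        refine pow_le_pow_left₀ ?_ (hb' h hh2) Q
        apply pow_nonneg
        rw [sub_nonneg, div_le_one hh0]
        have : (2 : ℝ) ≤ h := by exact_mod_cast hh2
        nlinarith
      linarith
    · set U := 2 ^ q with hU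
      have hU1 : 1 ≤ U := Nat.one_le_two_pow
      have hQU : Q ≤ 2 * U := by
        have : q < 2 ^ q := Nat.lt_two_pow_self
        omega
      have hhU : h ≤ K1 * U ^ (4 * M) := by
        calc h = (2 * M) ^ κ := rfl
          _ ≤ (2 ^ M) ^ κ := Nat.pow_le_pow_left (two_mul_le_two_pow M hM) κ
          _ = K1 * U ^ (4 * M) := by
              rw [hK1, hU, ← pow_mul, ← pow_mul, ← pow_add]
              congr 1
              rw [hκ, hQ]
              ring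
      have hv : h ^ 2 * (2 * (R - 1) + 6) ≤ 12 * b * K1 ^ 2 * U ^ (8 * M + 1) := by
        have h1 : 2 * (R - 1) + 6 ≤ 6 * R := by omega
        calc h ^ 2 * (2 * (R - 1) + 6) ≤ (K1 * U ^ (4 * M)) ^ 2 * (6 * (b * (2 * U))) := by
              gcongr
              refine le_trans h1 ?_
              rw [hR]
              gcongr
          _ = 12 * b * K1 ^ 2 * U ^ (8 * M + 1) := by ring
      have hRR : R * (b' * h * Q) + 1 ≤ 8 * b * b' * K1 * U ^ (4 * M + 2) := by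
        have h1 : 1 ≤ R * (b' * h * Q) := by
          apply Nat.mul_pos hR1
          apply Nat.mul_pos (Nat.mul_pos hb1' (by omega)) (by omega)
        calc R * (b' * h * Q) + 1 ≤ 2 * (R * (b' * h * Q)) := by omega
          _ ≤ 2 * ((b * (2 * U)) * (b' * (K1 * U ^ (4 * M)) * (2 * U))) := by
              rw [hR]
              gcongr
          _ = 8 * b * b' * K1 * U ^ (4 * M + 2) := by ring
      calc 4 * (h ^ 2 * (2 * (R - 1) + 6)) ^ 2 * (M * (R * (b' * h * Q) + 1))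
          ≤ 4 * (12 * b * K1 ^ 2 * U ^ (8 * M + 1)) ^ 2 * (M * (8 * b * b' * K1 * U ^ (4 * M + 2))) := by
            gcongr
        _ = 4608 * M * b ^ 3 * b' * K1 ^ 5 * U ^ (20 * M + 4) := by ring

end Pool.Agent.N381.ST
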