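import Pool.Agent.N381.ST.Rec

set_option autoImplicit false

/-!
# Windows of a sequence: all different, or the target makes a difference
-/

namespace Pool.Agent.N381.ST

open Finset

variable {G : Type} [AddCommGroup G] [DecidableEq G]

/-- The sequence `u` is not annihilated in the middle by the iterated difference. -/
def NP (h v : ℕ) (u : ℕ → G) : Prop := ∃ z, h ≤ z ∧ z + al (h - 1) < v ∧ T (h - 1) u z ≠ 0

omit [DecidableEq G] in
theorem win (h v : ℕ) (u : ℕ → G) (hu : NP h v u) (a b : Fin h) (hab : a ≠ b) :
    ∃ y : Fin v, u (y + a) ≠ u (y + b) := by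
  by_contra hcon
  push Not at hcon
  have key : ∀ a b : Fin h, (a : ℕ) < b → (∀ y : Fin v, u (y + a) = u (y + b)) → False := by
    intro a b hab h1
    obtain ⟨z, hz1, hz2, hz3⟩ := hu
    apply hz3
    have ha := a.2
    have hb := b.2
    refine T_periodic (h - 1) u (b - a) a (a + v) (by omega) (by omega) ?_ z (by omega) (by omega)
    intro y hy1 hy2
    have h2 := h1 ⟨y - a, by omega⟩
    simp only at h2
    rw [show y - (a : ℕ) + a = y by omega, show y - (a : ℕ) + b = y + (b - a) by omega] at h2
    exact h2.symm
  rcases Nat.lt_or_ge a b with h1 | h1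
  · exact key a b h1 hcon
  · have : (b : ℕ) < a := by
      rcases Nat.lt_or_ge b a with h2 | h2
      · exact h2
      · exact absurd (Fin.ext (by omega)) hab
    exact key b a this (fun y => (hcon y).symm)

theorem tgt (h v r z0 : ℕ) (u : ℕ → G) (m : G) (ρ : Fin v → G) (hh : 2 ≤ h)
    (hv : 2 * h + (2 * r + 3) * al (h - 1) + 1 ≤ v) (hv3 : 3 * h + 1 ≤ v) (hz0 : z0 = 2 * h)
    (hu : ¬ NP h v u) :
    #(univ.filter (fun a : Fin h =>
      #(univ.filter (fun y : Fin v => u (y + a) + (if (y : ℕ) + a = z0 then m else 0) + ρ y ≠ 0)) ≤ r ∧
        ∀ y : Fin v, u (y + a) + (if (y : ℕ) + a = z0 then m else 0) + ρ y ≠ m)) ≤ r + 1 := by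
  set α := al (h - 1) with hα
  have hα1 : 1 ≤ α := al_pos _ (by omega)
  have hu0 : ∀ z, h ≤ z → z + α < v → T (h - 1) u z = 0 := by
    intro z h1 h2
    by_contra h3
    exact hu ⟨z, h1, h2, h3⟩
  set D : Fin h → Fin v → G := fun a y => u (y + a) + (if (y : ℕ) + a = z0 then m else 0) + ρ y with hD
  set S : Finset (Fin h) := univ.filter (fun a : Fin h =>
      #(univ.filter (fun y : Fin v => D a y ≠ 0)) ≤ r ∧ ∀ y : Fin v, D a y ≠ m) with hS
  change #S ≤ r + 1
  rcases S.eq_empty_or_nonempty with hSe | ⟨a0, ha0⟩
  · rw [hSe]; simp
  · have hm0 := (Finset.mem_filter.mp ha0).2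
    -- all members of S have the same windows
    have hsame : ∀ a ∈ S, ∀ y, h ≤ y → y < v - h → u (y + a) = u (y + a0) := by
      intro a ha
      have hma := (Finset.mem_filter.mp ha).2
      set q : ℕ → G := fun y => u (y + a) - u (y + a0) with hq
      set Z : Finset (Fin v) := univ.filter (fun y : Fin v => q y ≠ 0) with hZ
      have ha2 := a.2
      have ha02 := a0.2
      have hZc : #Z ≤ 2 * r + 2 := by
        have hsub : Z ⊆ (univ.filter (fun y : Fin v => D a y ≠ 0) ∪
            univ.filter (fun y : Fin v => D a0 y ≠ 0)) ∪
            {⟨z0 - a, by omega⟩, ⟨z0 - a0, by omega⟩} := by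
          intro y hy
          have hy2 := (Finset.mem_filter.mp hy).2
          by_contra hcon
          simp only [Finset.mem_union, Finset.mem_filter, Finset.mem_univ, true_and,
            Finset.mem_insert, Finset.mem_singleton, not_or, not_not] at hcon
          obtain ⟨⟨h1, h2⟩, h3, h4⟩ := hcon
          apply hy2
          simp only [hD] at h1 h2
          have h5 : ¬ ((y : ℕ) + a = z0) := fun h => h3 (Fin.ext (by simp only; omega))
          have h6 : ¬ ((y : ℕ) + a0 = z0) := fun h => h4 (Fin.ext (by simp only; omega))
          rw [if_neg h5, add_zero] at h1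
          rw [if_neg h6, add_zero] at h2
          simp only [hq]
          have h7 : u (y + a) = u (y + a0) := by
            have := h1.trans h2.symm
            exact add_right_cancel this
          rw [h7, sub_self]
        refine le_trans (Finset.card_le_card hsub) ?_
        refine le_trans (Finset.card_union_le _ _) ?_
        have h8 := Finset.card_union_le (univ.filter (fun y : Fin v => D a y ≠ 0))
          (univ.filter (fun y : Fin v => D a0 y ≠ 0))
        have h9 : #({⟨z0 - a, by omega⟩, ⟨z0 - a0, by omega⟩} : Finset (Fin v)) ≤ 2 :=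
          Finset.card_le_two
        have := hma.1
        have := hm0.1
        omega
      -- a free run
      obtain ⟨l, hl, hl2⟩ : ∃ l, l < 2 * r + 3 ∧ ∀ y, h + l * α ≤ y → y < h + l * α + α → q y = 0 := by
        by_contra hcon
        push Not at hcon
        have hch : ∀ l : Fin (2 * r + 3), ∃ y : Fin v, h + l * α ≤ (y : ℕ) ∧ (y : ℕ) < h + l * α + α ∧
            q y ≠ 0 := by
          intro l
          obtain ⟨y, h1, h2, h3⟩ := hcon l l.2
          have h4 : (l : ℕ) * α + α ≤ (2 * r + 3) * α := by
            have h5 : ((l : ℕ) + 1) * α ≤ (2 * r + 3) * α := Nat.mul_le_mul_right _ l.2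
            have h6 : ((l : ℕ) + 1) * α = l * α + α := by ring
            omega
          exact ⟨⟨y, by omega⟩, h1, h2, h3⟩
        choose y hy1 hy2 hy3 using hch
        have hinj : Function.Injective y := by
          intro l l' hll
          have h1 := hy1 l
          have h2 := hy2 l
          have h3 := hy1 l'
          have h4 := hy2 l'
          rw [← hll] at h3 h4
          apply Fin.ext
          by_contra hne
          rcases Nat.lt_or_ge l l' with h5 | h5
          · have h6 : ((l : ℕ) + 1) * α ≤ l' * α := Nat.mul_le_mul_right _ h5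
            have h7 : ((l : ℕ) + 1) * α = l * α + α := by ring
            omega
          · have h5' : (l' : ℕ) + 1 ≤ l := by omega
            have h6 : ((l' : ℕ) + 1) * α ≤ l * α := Nat.mul_le_mul_right _ h5'
            have h7 : ((l' : ℕ) + 1) * α = l' * α + α := by ring
            omega
        have h8 : #(univ.image y) ≤ #Z := Finset.card_le_card (by
          intro w hw
          rw [Finset.mem_image] at hw
          obtain ⟨l, _, rfl⟩ := hw
          exact Finset.mem_filter.mpr ⟨Finset.mem_univ _, hy3 l⟩)
        rw [Finset.card_image_of_injective _ hinj, Finset.card_univ, Fintype.card_fin] at h8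
        omega
      have hlα : l * α + α ≤ (2 * r + 3) * α := by
        have h5 : (l + 1) * α ≤ (2 * r + 3) * α := Nat.mul_le_mul_right _ hl
        have h6 : (l + 1) * α = l * α + α := by ring
        omega
      have hrun := T_run (h - 1) q h (v - α - h) (h + l * α) (by omega) (by omega)
        (by
          intro z hz1 hz2
          simp only [hq]
          rw [T_sub, T_shift, T_shift, hu0 _ (by omega) (by omega), hu0 _ (by omega) (by omega),
            sub_self])
        (by
          intro z hz1 hz2
          exact hl2 z hz1 hz2)
      intro y hy1 hy2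
      have := hrun y hy1 (by omega)
      simp only [hq] at this
      exact sub_eq_zero.mp this
    -- the places
    have hinj : Function.Injective (fun a : Fin h => (z0 - (a : ℕ))) := by
      intro a b hab
      have ha := a.2
      have hb := b.2
      simp only at hab
      exact Fin.ext (by omega)
    have ha02 := a0.2
    have hsub : S.image (fun a : Fin h => (z0 - (a : ℕ))) ⊆
        insert (z0 - (a0 : ℕ)) ((univ.filter (fun y : Fin v => D a0 y ≠ 0)).image (fun y : Fin v => (y : ℕ))) := by
      intro y hy
      rw [Finset.mem_image] at hy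
      obtain ⟨a, ha, rfl⟩ := hy
      have ha2 := a.2
      rw [Finset.mem_insert]
      by_cases h1 : (a : ℕ) = a0
      · left; rw [h1]
      · right
        rw [Finset.mem_image]
        refine ⟨⟨z0 - a, by omega⟩, ?_, rfl⟩
        rw [Finset.mem_filter]
        refine ⟨Finset.mem_univ _, ?_⟩
        have hma := (Finset.mem_filter.mp ha).2.2 ⟨z0 - a, by omega⟩
        have h2 := hsame a ha (z0 - a) (by omega) (by omega)
        simp only [hD] at hma ⊢
        rw [show z0 - (a : ℕ) + a = z0 by omega, if_pos rfl] at hma
        rw [show z0 - (a : ℕ) + a = z0 by omega] at h2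
        have h3 : ¬ (z0 - (a : ℕ) + a0 = z0) := by omega
        rw [if_neg h3, add_zero, ← h2]
        intro h4
        apply hma
        rw [add_assoc, add_comm m, ← add_assoc, h4, zero_add]
    have h5 := Finset.card_le_card hsub
    rw [Finset.card_image_of_injective _ hinj] at h5
    refine le_trans h5 (le_trans (Finset.card_insert_le _ _) ?_)
    have h6 := Finset.card_image_le (s := univ.filter (fun y : Fin v => D a0 y ≠ 0))
      (f := fun y : Fin v => (y : ℕ))
    have := hm0.1
    omega

end Pool.Agent.N381.ST
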