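import Pool.Agent.N381.ST.Dsc
import Pool.Agent.N381.ST.Tgt

set_option autoImplicit false

/-!
# The correlation of the target with the characters of the memory
-/

namespace Pool.Agent.N381.ST

open Finset ZMod

variable {N : ℕ} [NeZero N]

/-- The part of the sequence `c` which belongs to the pair `(i, j)`. -/
def pt {G : Type} (c : ℕ → G) (S k i j : ℕ) : ℕ → G := fun z => c ((i + j * k) * S + z)

/-- The phases of the coefficients `c`. -/
def wt (c : ℕ → ZMod N) (S k h v : ℕ) : Fin k → Fin h → Fin k × Fin v → ZMod N :=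
  fun i a p => c (((i : ℕ) + p.1 * k) * S + ((p.2 : ℕ) + a))

theorem idx {k S : ℕ} (i i' j j' : ℕ) (hi : i < k) (hi' : i' < k) (z z' : ℕ) (hz : z < S) (hz' : z' < S)
    (h : (i + j * k) * S + z = (i' + j' * k) * S + z') : i = i' ∧ j = j' ∧ z = z' := by
  have hS : 0 < S := by omega
  have hk : 0 < k := by omega
  have h1 : ((i + j * k) * S + z) / S = i + j * k := by
    rw [mul_comm, Nat.mul_add_div hS, Nat.div_eq_of_lt hz, add_zero]
  have h2 : ((i' + j' * k) * S + z') / S = i' + j' * k := by
    rw [mul_comm, Nat.mul_add_div hS, Nat.div_eq_of_lt hz', add_zero]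
  have h3 : i + j * k = i' + j' * k := by rw [← h1, ← h2, h]
  have h4 : (i + j * k) % k = i := by rw [Nat.add_mul_mod_self_right, Nat.mod_eq_of_lt hi]
  have h5 : (i' + j' * k) % k = i' := by rw [Nat.add_mul_mod_self_right, Nat.mod_eq_of_lt hi']
  have h6 : i = i' := by rw [← h4, ← h5, h3]
  subst h6
  have h7 : j * k = j' * k := by omega
  have h8 : j = j' := Nat.eq_of_mul_eq_mul_right hk h7
  subst h8
  exact ⟨rfl, rfl, by omega⟩

open Classical in
/-- The pairs for which the part of the sequence is not annihilated. -/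
noncomputable def nps {G : Type} [AddCommGroup G] (c : ℕ → G) (S k h v : ℕ) :
    Finset (Fin k × Fin k) := univ.filter (fun q => NP h v (pt c S k q.1 q.2))

theorem disc_all (lam : ℝ) (hl0 : 0 < lam) (hl1 : lam < 1)
    (hl : ∀ a : ZMod N, a ≠ 0 → ‖(1 : ℂ) + stdAddChar a‖ ≤ 2 * lam)
    (hl' : ∀ a b : ZMod N, a ≠ b → ‖(stdAddChar a : ℂ) + stdAddChar b‖ ≤ 2 * lam)
    (hN : 2 ≤ N) (k h v S z0 r R R' κ : ℕ) (hh : 2 ≤ h)
    (hv : 2 * h + (2 * r + 3) * al (h - 1) + 1 ≤ v) (hv3 : 3 * h + 1 ≤ v) (hS : v + h ≤ S)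
    (hz0 : z0 = 2 * h) (hκ : N ^ κ ≤ h)
    (c0 : ℕ → ZMod N) (m : ZMod N) (hm : (stdAddChar m : ℂ) = -1) (i j : Fin k)
    (hcase : ¬ NP h v (pt c0 S k i j) ∨ R * R' + 1 < #(nps c0 S k h v))
    (ε : ℝ) (h1 : ((r : ℝ) + 1) / h + lam ^ (r + 1) ≤ ε) (h2 : 1 / (h : ℝ) + lam ^ R ≤ ε)
    (h3 : 1 / (2 : ℝ) ^ κ + (1 - 2 * (1 - lam) / h) ^ R' ≤ ε)
    (f : (Fin k → Fin h) → ℂ) (g : Finset (Fin k × Fin v) → ℂ)
    (hf : ∀ x, ‖f x‖ ≤ 1) (hg : ∀ z, ‖g z‖ ≤ 1) :
    ‖∑ x, ∑ Y, stdAddChar (ph (wt (fun z => c0 z + if z = ((i : ℕ) + j * k) * S + z0 then m else 0)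
      S k h v) x Y) * f x * g Y‖ ^ 2 ≤ ((h : ℝ) ^ k * 2 ^ Fintype.card (Fin k × Fin v)) ^ 2 * ε := by
  classical
  set C : ℕ → ZMod N := fun z => c0 z + if z = ((i : ℕ) + j * k) * S + z0 then m else 0 with hC
  have hTt : (0 : ℝ) ≤ ((h : ℝ) ^ k * 2 ^ Fintype.card (Fin k × Fin v)) ^ 2 := by positivity
  have hh0 : (0 : ℝ) < h := by exact_mod_cast (by omega : 0 < h)
  -- the target
  by_cases hnp : NP h v (pt c0 S k i j)
  swap
  · refine le_trans (disc_target (wt C S k h v) f g hf hg lam hl0 hl1 hl i (r + 1) r m hm (by omega)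
      ?_) (mul_le_mul_of_nonneg_left (by push_cast; exact h1) hTt)
    intro x x'
    set ρ : Fin v → ZMod N := fun y =>
      ∑ l ∈ univ.erase i, wt C S k h v l (x l) (j, y) - ∑ l, wt C S k h v l (x' l) (j, y) with hρ
    refine le_trans (Finset.card_le_card ?_) (tgt h v r z0 (pt c0 S k i j) m ρ hh hv hv3 hz0 hnp)
    intro a ha
    rw [Finset.mem_filter] at ha ⊢
    obtain ⟨_, ha1, ha2⟩ := ha
    have key : ∀ y : Fin v, pt c0 S k i j (y + a) + (if (y : ℕ) + a = z0 then m else 0) + ρ y =
        dl (wt C S k h v) (Function.update x i a) x' (j, y) := by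
      intro y
      simp only [dl, hρ]
      rw [← Finset.add_sum_erase univ (fun l => wt C S k h v l (Function.update x i a l) (j, y))
        (Finset.mem_univ i)]
      have h4 : ∑ l ∈ univ.erase i, wt C S k h v l (Function.update x i a l) (j, y) =
          ∑ l ∈ univ.erase i, wt C S k h v l (x l) (j, y) := by
        refine Finset.sum_congr rfl fun l hl => ?_
        rw [Function.update_of_ne (Finset.ne_of_mem_erase hl)]
      rw [h4, Function.update_self, add_sub_assoc]
      congr 1
      simp only [wt, pt, hC]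
      congr 1
      have : (((i : ℕ) + j * k) * S + ((y : ℕ) + a) = ((i : ℕ) + j * k) * S + z0) ↔
          ((y : ℕ) + a = z0) := by omega
      simp only [this]
    refine ⟨Finset.mem_univ _, ?_, ?_⟩
    · refine le_trans ?_ ha1
      refine Finset.card_le_card_of_injOn (fun y => (j, y)) ?_ ?_
      · intro y hy
        simp only [Finset.coe_filter, Set.mem_setOf_eq, Finset.mem_univ, true_and] at hy ⊢
        rw [← key y]
        exact hy
      · intro y _ y' _ hyy
        exact (Prod.ext_iff.mp hyy).2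
    · intro y
      rw [key y]
      exact ha2 _
  · have hbig : R * R' + 1 < #(nps c0 S k h v) := by
      rcases hcase with h | h
      · exact absurd hnp h
      · exact h
    -- NP for C away from the target
    have hsub : (nps c0 S k h v).erase (i, j) ⊆ nps C S k h v := by
      intro q hq
      rw [Finset.mem_erase] at hq
      obtain ⟨hq1, hq2⟩ := hq
      simp only [nps, Finset.mem_filter, Finset.mem_univ, true_and] at hq2 ⊢
      obtain ⟨z, hz1, hz2, hz3⟩ := hq2
      refine ⟨z, hz1, hz2, ?_⟩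
      rw [T_local (h - 1) (pt C S k q.1 q.2) (pt c0 S k q.1 q.2) z]
      · exact hz3
      · intro y hy1 hy2
        simp only [pt, hC]
        rw [if_neg, add_zero]
        intro heq
        apply hq1
        have := idx (S := S) (q.1 : ℕ) i (q.2 : ℕ) j q.1.2 i.2 y z0 (by omega) (by omega) heq
        exact Prod.ext (Fin.ext this.1) (Fin.ext this.2.1)
    have hcard : R * R' < #(nps C S k h v) := by
      have h4 := Finset.card_le_card hsub
      have h5 := Finset.pred_card_le_card_erase (s := nps c0 S k h v) (a := (i, j))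
      omega
    set I := (nps C S k h v).image Prod.fst with hI
    set J := (nps C S k h v).image Prod.snd with hJ
    have hIJ : #(nps C S k h v) ≤ #I * #J := by
      rw [← Finset.card_product]
      refine Finset.card_le_card ?_
      intro q hq
      rw [Finset.mem_product]
      exact ⟨Finset.mem_image_of_mem _ hq, Finset.mem_image_of_mem _ hq⟩
    rcases Nat.lt_or_ge R #J with h6 | h6
    · refine le_trans (disc_col (wt C S k h v) f g hf hg lam hl0 hl1 hl (by omega) J (by omega) ?_)
        (mul_le_mul_of_nonneg_left ?_ hTt)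
      · intro j' hj'
        rw [hJ, Finset.mem_image] at hj'
        obtain ⟨q, hq, rfl⟩ := hj'
        simp only [nps, Finset.mem_filter, Finset.mem_univ, true_and] at hq
        refine ⟨q.1, ?_⟩
        intro a b hab
        obtain ⟨y, hy⟩ := win h v _ hq a b hab
        exact ⟨y, hy⟩
      · have := pow_le_pow_of_le_one hl0.le hl1.le h6.le
        linarith
    · have h7 : R' < #I := by
        by_contra hcon
        push Not at hcon
        have : #I * #J ≤ R' * R := Nat.mul_le_mul hcon h6
        have h8 : R' * R = R * R' := Nat.mul_comm _ _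
        omega
      refine le_trans (disc_row (wt C S k h v) f g hf hg lam hl0 hl1 hl' hh hN κ hκ I (by omega) ?_)
        (mul_le_mul_of_nonneg_left ?_ hTt)
      · intro i' hi' a b hab
        rw [hI, Finset.mem_image] at hi'
        obtain ⟨q, hq, rfl⟩ := hi'
        simp only [nps, Finset.mem_filter, Finset.mem_univ, true_and] at hq
        obtain ⟨y, hy⟩ := win h v _ hq a b hab
        exact ⟨(q.2, y), hy⟩
      · have hh2 : (2 : ℝ) ≤ h := by exact_mod_cast hh
        have h9 : 2 * (1 - lam) / h ≤ 1 := by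
          rw [div_le_one hh0]
          nlinarith
        have h10 : 0 ≤ 2 * (1 - lam) / h := div_nonneg (by linarith) hh0.le
        have := pow_le_pow_of_le_one (by linarith : 0 ≤ 1 - 2 * (1 - lam) / h) (by linarith) h7.le
        linarith

end Pool.Agent.N381.ST
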