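import Pool.Agent.N381.ST.Tre

set_option autoImplicit false

/-!
# The model
-/

namespace Pool.Agent.N381.ST

open Finset Pointwise

/-- A data structure for two sets of integers. Its cells hold integers modulo `M`; the content of the
cell `c` is the sum of `coef c z` over the integers `z` for which the answer is positive, plus the sum of
`mult c (a + b)` over all pairs of an element `a` of the first set and an element `b` of the second set,
plus a function of the first set, plus a function of the second set. The query algorithms read `t`
cells adaptively. -/
structure SumTables (M t : ℕ) where
  /-- the cells -/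
  cells : Type
  /-- there are finitely many cells -/
  fin : Fintype cells
  /-- the coefficient of the answer to the query `z` in a cell -/
  coef : cells → ℕ → ZMod M
  /-- the coefficient of the number of representations of `z` in a cell -/
  mult : cells → ℕ → ZMod M
  /-- the part of a cell which depends on the first set only -/
  left : cells → Finset ℕ → ZMod M
  /-- the part of a cell which depends on the second set only -/
  right : cells → Finset ℕ → ZMod M
  /-- the query algorithms -/
  query : ℕ → Tree M cells t

variable {M t : ℕ}

/-- The contents of the cells. The first sum is over all `z` in the sumset, that is, over all `z` for which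
the answer is positive. The second sum is the sum over all `z` of `mult c z` times the number of
representations `z = a + b`. -/
def SumTables.content (D : SumTables M t) (A B : Finset ℕ) (c : D.cells) : ZMod M :=
  ∑ z ∈ A + B, D.coef c z + ∑ a ∈ A, ∑ b ∈ B, D.mult c (a + b) + D.left c A + D.right c B

/-- The output of the query algorithm for `z`. -/
def SumTables.output (D : SumTables M t) (A B : Finset ℕ) (z : ℕ) : Bool :=
  Tree.eval t (D.query z) (D.content A B)

open Classical in
/-- The number of cells in which some answer or some number of representations enters. -/
noncomputable def SumTables.space (D : SumTables M t) : ℕ :=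
  #((@Finset.univ D.cells D.fin).filter (fun c => D.coef c ≠ 0 ∨ D.mult c ≠ 0))

/-- The admissible sets: at most `n` integers from `{0, …, 2 n ^ 2}`. -/
def Arr (n : ℕ) (A : Finset ℕ) : Prop := #A ≤ n ∧ ∀ a ∈ A, a ≤ 2 * n ^ 2

/-- The random data structure `D` (the outcome `ω` has probability `p ω`) answers every query for all
sets correctly with probability at least `1 / 2 + δ`. -/
def Solves {Ω : Type} [Fintype Ω] (n : ℕ) (p : Ω → ℝ) (D : Ω → SumTables M t) (δ : ℝ) : Prop :=
  (∀ ω, 0 ≤ p ω) ∧ ∑ ω, p ω = 1 ∧ ∀ A B : Finset ℕ, Arr n A → Arr n B → ∀ z : ℕ,
    1 / 2 + δ ≤ ∑ ω, p ω * (if (D ω).output A B z = decide (z ∈ A + B) then 1 else 0)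

end Pool.Agent.N381.ST
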