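import Mathlib

set_option autoImplicit false

/-!
# Characters of the integers modulo `M` and `2 M`
-/

namespace Pool.Agent.N381.ST

open Finset ZMod

variable (M : ℕ) [NeZero M]

instance : NeZero (2 * M) := ⟨by have := NeZero.ne M; omega⟩

/-- Multiplication by two, from the integers modulo `M` to the integers modulo `2 M`. -/
noncomputable def dbl : ZMod M →+ ZMod (2 * M) :=
  ZMod.lift M ⟨(AddMonoidHom.mulLeft (2 : ZMod (2 * M))).comp (Int.castAddHom (ZMod (2 * M))), by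
    simp only [AddMonoidHom.comp_apply, Int.coe_castAddHom, AddMonoidHom.coe_mulLeft]
    have : ((2 * M : ℕ) : ZMod (2 * M)) = 0 := ZMod.natCast_self _
    push_cast at this ⊢
    exact this⟩

theorem dbl_int (j : ℤ) : dbl M (j : ZMod M) = ((2 * j : ℤ) : ZMod (2 * M)) := by
  unfold dbl
  rw [ZMod.lift_coe]
  simp

theorem chr_dbl (a : ZMod M) : stdAddChar (dbl M a) = stdAddChar a := by
  obtain ⟨j, rfl⟩ := ZMod.intCast_surjective a
  rw [dbl_int, stdAddChar_coe, stdAddChar_coe]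
  congr 1
  have : (M : ℂ) ≠ 0 := by exact_mod_cast NeZero.ne M
  push_cast
  field_simp

theorem dbl_inj (a : ZMod M) (h : dbl M a = 0) : a = 0 := by
  have h1 := chr_dbl M a
  rw [h, AddChar.map_zero_eq_one] at h1
  have : stdAddChar a = stdAddChar (0 : ZMod M) := by rw [AddChar.map_zero_eq_one]; exact h1.symm
  exact injective_stdAddChar this

theorem chr_half : stdAddChar ((M : ℕ) : ZMod (2 * M)) = (-1 : ℂ) := by
  have h := stdAddChar_coe (N := 2 * M) (M : ℤ)
  have hM : (M : ℂ) ≠ 0 := by exact_mod_cast NeZero.ne M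
  have h2 : (((M : ℕ) : ℤ) : ZMod (2 * M)) = ((M : ℕ) : ZMod (2 * M)) := by push_cast; rfl
  rw [h2] at h
  rw [h, ← Complex.exp_pi_mul_I]
  congr 1
  push_cast
  field_simp

theorem chr_norm (N : ℕ) [NeZero N] (a : ZMod N) : ‖(stdAddChar a : ℂ)‖ = 1 := by
  rw [stdAddChar_apply]
  exact Circle.norm_coe _

theorem chr_conj (N : ℕ) [NeZero N] (a : ZMod N) :
    (starRingEnd ℂ) (stdAddChar a : ℂ) = stdAddChar (-a) := by
  have h1 : (stdAddChar a : ℂ) * stdAddChar (-a) = 1 := by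
    rw [← AddChar.map_add_eq_mul, add_neg_cancel, AddChar.map_zero_eq_one]
  have h2 : (stdAddChar a : ℂ) * (starRingEnd ℂ) (stdAddChar a : ℂ) = 1 := by
    rw [Complex.mul_conj, Complex.normSq_eq_norm_sq, chr_norm]
    simp
  have h3 : (stdAddChar a : ℂ) ≠ 0 := by
    intro h
    rw [h, zero_mul] at h1
    exact zero_ne_one h1
  exact mul_left_cancel₀ h3 (h2.trans h1.symm)

/-- The gap: two different values of the character are not almost opposite. -/
theorem gap (N : ℕ) [NeZero N] : ∃ lam : ℝ, 0 < lam ∧ lam < 1 ∧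
    (∀ a : ZMod N, a ≠ 0 → ‖(1 : ℂ) + stdAddChar a‖ ≤ 2 * lam) ∧
    (∀ a b : ZMod N, a ≠ b → ‖(stdAddChar a : ℂ) + stdAddChar b‖ ≤ 2 * lam) := by
  have hlt : ∀ a : ZMod N, a ≠ 0 → ‖(1 : ℂ) + stdAddChar a‖ < 2 := by
    intro a ha
    have hne : (stdAddChar a : ℂ) ≠ 1 := by
      intro h
      apply ha
      exact injective_stdAddChar (by rw [h, AddChar.map_zero_eq_one])
    have h1 : ‖(1 : ℂ)‖ = ‖(stdAddChar a : ℂ)‖ := by rw [chr_norm]; simp
    have h2 : ¬ SameRay ℝ (1 : ℂ) (stdAddChar a) := by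
      intro h
      have := (sameRay_iff_of_norm_eq h1).mp h
      exact hne this.symm
    have h3 := (not_sameRay_iff_norm_add_lt).mp h2
    rw [chr_norm, norm_one] at h3
    linarith
  classical
  set S : Finset (ZMod N) := univ.filter (fun a => a ≠ 0) with hS
  obtain ⟨lam, hl0, hl1, hl2⟩ : ∃ lam : ℝ, 0 < lam ∧ lam < 1 ∧
      ∀ a ∈ S, ‖(1 : ℂ) + stdAddChar a‖ ≤ 2 * lam := by
    rcases S.eq_empty_or_nonempty with h | h
    · exact ⟨1 / 2, by norm_num, by norm_num, by rw [h]; intro a ha; simp at ha⟩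
    · obtain ⟨b, hb, hb2⟩ := Finset.exists_max_image S (fun a => ‖(1 : ℂ) + stdAddChar a‖) h
      have hb3 := hlt b (Finset.mem_filter.mp hb).2
      refine ⟨max (1 / 2) (‖(1 : ℂ) + stdAddChar b‖ / 2), ?_, ?_, ?_⟩
      · exact lt_of_lt_of_le (by norm_num) (le_max_left _ _)
      · apply max_lt <;> linarith
      · intro a ha
        have h1 := hb2 a ha
        have h2 := le_max_right (1 / 2 : ℝ) (‖(1 : ℂ) + stdAddChar b‖ / 2)
        linarith
  have h4 : ∀ a : ZMod N, a ≠ 0 → ‖(1 : ℂ) + stdAddChar a‖ ≤ 2 * lam :=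
    fun a ha => hl2 a (Finset.mem_filter.mpr ⟨Finset.mem_univ _, ha⟩)
  refine ⟨lam, hl0, hl1, h4, ?_⟩
  intro a b hab
  have h5 : (stdAddChar a : ℂ) + stdAddChar b = stdAddChar a * (1 + stdAddChar (b - a)) := by
    rw [mul_add, mul_one, ← AddChar.map_add_eq_mul, add_sub_cancel]
  rw [h5, norm_mul, chr_norm, one_mul]
  exact h4 _ (fun h => hab (sub_eq_zero.mp h).symm)

/-- The indicator of a value as a mean of characters. -/
theorem indicator (N : ℕ) [NeZero N] (a b : ZMod N) :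
    (if a = b then (1 : ℂ) else 0) = (1 / (N : ℂ)) * ∑ κ : ZMod N, stdAddChar (κ * (a - b)) := by
  have h1 := AddChar.sum_mulShift (a - b) (isPrimitive_stdAddChar N)
  rw [h1]
  have hN : (N : ℂ) ≠ 0 := by exact_mod_cast NeZero.ne N
  by_cases h : a = b
  · rw [if_pos h, if_pos (sub_eq_zero.mpr h), ZMod.card]
    field_simp
  · rw [if_neg h, if_neg (fun h' => h (sub_eq_zero.mp h'))]
    simp

end Pool.Agent.N381.ST
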