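import Pool.Agent.N381.ST.Rec
import Mathlib

set_option autoImplicit false

/-!
# The hard arrays
-/

namespace Pool.Agent.N381.ST

open Finset Pointwise

/-- The first set: one element in each of `k` blocks. -/
def setA (k h S : ℕ) (x : Fin k → Fin h) : Finset ℕ :=
  univ.image (fun i : Fin k => (i : ℕ) * S + x i)

/-- The second set: the block number `j` holds the elements `y` with `(j, y) ∈ Y`. -/
def setB (k v S : ℕ) (Y : Finset (Fin k × Fin v)) : Finset ℕ :=
  Y.image (fun p => (p.1 : ℕ) * (k * S) + p.2)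

theorem add_eq (k h v S : ℕ) (x : Fin k → Fin h) (Y : Finset (Fin k × Fin v)) :
    setA k h S x + setB k v S Y = (Y ×ˢ (univ : Finset (Fin k))).image
      (fun q => ((q.2 : ℕ) + q.1.1 * k) * S + ((q.1.2 : ℕ) + x q.2)) := by
  ext z
  simp only [setA, setB, Finset.mem_add, Finset.mem_image, Finset.mem_product, Finset.mem_univ,
    and_true, true_and]
  constructor
  · rintro ⟨a, ⟨i, rfl⟩, b, ⟨p, hp, rfl⟩, rfl⟩
    exact ⟨(p, i), hp, by simp only; ring⟩
  · rintro ⟨q, hq, rfl⟩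
    exact ⟨_, ⟨q.2, rfl⟩, _, ⟨q.1, hq, rfl⟩, by ring⟩

theorem card_A (k h S : ℕ) (x : Fin k → Fin h) : #(setA k h S x) ≤ k := by
  refine le_trans Finset.card_image_le ?_
  simp

theorem card_B (k v S : ℕ) (Y : Finset (Fin k × Fin v)) : #(setB k v S Y) ≤ k * v := by
  refine le_trans Finset.card_image_le ?_
  refine le_trans (Finset.card_le_univ _) ?_
  simp

theorem bound_A (k h S : ℕ) (x : Fin k → Fin h) (hS : h ≤ S) : ∀ a ∈ setA k h S x, a ≤ k * S := by
  intro a ha
  simp only [setA, Finset.mem_image, Finset.mem_univ, true_and] at ha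
  obtain ⟨i, rfl⟩ := ha
  have h1 := i.2
  have h2 := (x i).2
  have h3 : ((i : ℕ) + 1) * S ≤ k * S := Nat.mul_le_mul_right _ h1
  have h4 : ((i : ℕ) + 1) * S = i * S + S := by ring
  omega

theorem bound_B (k v S : ℕ) (Y : Finset (Fin k × Fin v)) (hS : v ≤ S) :
    ∀ b ∈ setB k v S Y, b ≤ k * (k * S) := by
  intro b hb
  simp only [setB, Finset.mem_image] at hb
  obtain ⟨p, _, rfl⟩ := hb
  have h1 := p.1.2
  have h2 := p.2.2
  have h3 : ((p.1 : ℕ) + 1) * (k * S) ≤ k * (k * S) := Nat.mul_le_mul_right _ h1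
  have h4 : ((p.1 : ℕ) + 1) * (k * S) = p.1 * (k * S) + k * S := by ring
  have h5 : 1 * S ≤ k * S := Nat.mul_le_mul_right _ (by omega)
  omega

end Pool.Agent.N381.ST
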