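import Pool.Agent.N381.ST.All
import Pool.Agent.N381.ST.Emb

set_option autoImplicit false

/-!
# Sums over the sumset of the hard arrays
-/

namespace Pool.Agent.N381.ST

open Finset Pointwise

theorem inj_rep {k h v S : ℕ} (hS : v + h ≤ S) (x : Fin k → Fin h) (q q' : (Fin k × Fin v) × Fin k)
    (hq : ((q.2 : ℕ) + q.1.1 * k) * S + ((q.1.2 : ℕ) + x q.2) =
      ((q'.2 : ℕ) + q'.1.1 * k) * S + ((q'.1.2 : ℕ) + x q'.2)) : q = q' := by
  have h1 := q.1.2.2
  have h2 := q'.1.2.2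
  have h3 := (x q.2).2
  have h4 := (x q'.2).2
  have := idx (S := S) (q.2 : ℕ) q'.2 (q.1.1 : ℕ) q'.1.1 q.2.2 q'.2.2 _ _ (by omega) (by omega) hq
  obtain ⟨e1, e2, e3⟩ := this
  have e1' : q.2 = q'.2 := Fin.ext e1
  rw [e1'] at e3
  exact Prod.ext (Prod.ext (Fin.ext e2) (Fin.ext (by omega))) e1'

theorem sum_add {G : Type} [AddCommMonoid G] (k h v S : ℕ) (hS : v + h ≤ S) (x : Fin k → Fin h)
    (Y : Finset (Fin k × Fin v)) (c : ℕ → G) :
    ∑ z ∈ setA k h S x + setB k v S Y, c z =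
      ∑ p ∈ Y, ∑ i : Fin k, c (((i : ℕ) + p.1 * k) * S + ((p.2 : ℕ) + x i)) := by
  rw [add_eq, Finset.sum_image, Finset.sum_product]
  intro q _ q' _ hqq
  exact inj_rep hS x q q' hqq

theorem sum_ph {N : ℕ} [NeZero N] (k h v S : ℕ) (hS : v + h ≤ S) (x : Fin k → Fin h)
    (Y : Finset (Fin k × Fin v)) (c : ℕ → ZMod N) :
    ∑ z ∈ setA k h S x + setB k v S Y, c z = ph (wt c S k h v) x Y := by
  rw [sum_add k h v S hS]
  rfl

theorem sum_add2 {G : Type} [AddCommMonoid G] (k h v S : ℕ) (hS : v + h ≤ S) (x : Fin k → Fin h)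
    (Y : Finset (Fin k × Fin v)) (c : ℕ → G) :
    ∑ a ∈ setA k h S x, ∑ b ∈ setB k v S Y, c (a + b) =
      ∑ z ∈ setA k h S x + setB k v S Y, c z := by
  rw [sum_add k h v S hS, setA, Finset.sum_image]
  · rw [Finset.sum_comm (s := Y)]
    refine Finset.sum_congr rfl fun i _ => ?_
    rw [setB, Finset.sum_image]
    · refine Finset.sum_congr rfl fun p _ => ?_
      congr 1
      ring
    · intro p _ p' _ hpp
      have h1 := p.2.2
      have h2 := p'.2.2
      have hk : 0 < k := lt_of_le_of_lt (Nat.zero_le _) i.2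
      have := idx (k := k) (S := S) 0 0 (p.1 : ℕ) p'.1 hk hk (p.2 : ℕ) p'.2 (by omega) (by omega) (by
        simp only at hpp
        calc (0 + (p.1 : ℕ) * k) * S + p.2 = p.1 * (k * S) + p.2 := by ring
          _ = p'.1 * (k * S) + p'.2 := hpp
          _ = _ := by ring)
      exact Prod.ext (Fin.ext this.2.1) (Fin.ext this.2.2)
  · intro i _ i' _ hii
    have h1 := (x i).2
    have h2 := (x i').2
    have := idx (k := k) (S := S) (i : ℕ) i' 0 0 i.2 i'.2 (x i : ℕ) (x i') (by omega) (by omega) (by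
      simp only at hii
      simpa using hii)
    exact Fin.ext this.1

end Pool.Agent.N381.ST
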