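import Pool.Agent.N381.ST.Bad

set_option autoImplicit false

/-!
# The query of a pair which is not bad
-/

namespace Pool.Agent.N381.ST

open Finset ZMod Pointwise

variable {M t : ℕ} [NeZero M]

/-- The query of a pair which is not bad has small correlation with the output. -/
theorem good_pair (D : SumTables M t) (lam : ℝ) (hl0 : 0 < lam) (hl1 : lam < 1)
    (hl : ∀ a : ZMod (2 * M), a ≠ 0 → ‖(1 : ℂ) + stdAddChar a‖ ≤ 2 * lam)
    (hl' : ∀ a b : ZMod (2 * M), a ≠ b → ‖(stdAddChar a : ℂ) + stdAddChar b‖ ≤ 2 * lam)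
    (k h v S z0 r R R' κ : ℕ) (hh : 2 ≤ h)
    (hv : 2 * h + (2 * r + 3) * al (h - 1) + 1 ≤ v) (hv3 : 3 * h + 1 ≤ v) (hS : v + h ≤ S)
    (hz0 : z0 = 2 * h) (hκ : (2 * M) ^ κ ≤ h) (ε : ℝ) (h1 : ((r : ℝ) + 1) / h + lam ^ (r + 1) ≤ ε ^ 2)
    (h2 : 1 / (h : ℝ) + lam ^ R ≤ ε ^ 2)
    (h3 : 1 / (2 : ℝ) ^ κ + (1 - 2 * (1 - lam) / h) ^ R' ≤ ε ^ 2) (hε : 0 ≤ ε)
    (i j : Fin k) (hgood : ¬ Bad D S k h v (R * R' + 1) (i, j)) :
    ‖∑ a : (Fin k → Fin h) × Finset (Fin k × Fin v),
      sg (decide (((i : ℕ) + j * k) * S + z0 ∈ setA k h S a.1 + setB k v S a.2)) *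
      sg (D.output (setA k h S a.1) (setB k v S a.2) (((i : ℕ) + j * k) * S + z0))‖ ≤
      (M : ℝ) ^ t * ((h : ℝ) ^ k * 2 ^ Fintype.card (Fin k × Fin v) * ε) := by
  classical
  letI := D.fin
  have hq : 0 ≤ (h : ℝ) ^ k * 2 ^ Fintype.card (Fin k × Fin v) * ε := by positivity
  suffices hyp : ∀ e : D.cells → ZMod M, ‖∑ a : (Fin k → Fin h) × Finset (Fin k × Fin v),
      sg (decide (((i : ℕ) + j * k) * S + z0 ∈ setA k h S a.1 + setB k v S a.2)) *
        stdAddChar (∑ c, e c * D.content (setA k h S a.1) (setB k v S a.2) c)‖ ≤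
      (h : ℝ) ^ k * 2 ^ Fintype.card (Fin k × Fin v) * ε by
    simp only [SumTables.output]
    generalize (h : ℝ) ^ k * 2 ^ Fintype.card (Fin k × Fin v) * ε = Q at hq hyp ⊢
    generalize D.query (((i : ℕ) + j * k) * S + z0) = Tq
    exact tree_bound (fun (a : (Fin k → Fin h) × Finset (Fin k × Fin v)) =>
      D.content (setA k h S a.1) (setB k v S a.2)) Q hq t Tq
      (fun a => sg (decide (((i : ℕ) + j * k) * S + z0 ∈ setA k h S a.1 + setB k v S a.2))) hyp
  intro e
  set c0 : ℕ → ZMod (2 * M) := fun z => dbl M (D.comb e z) with hc0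
  set m : ZMod (2 * M) := ((M : ℕ) : ZMod (2 * M)) with hm
  have hnp : ∀ q : Fin k × Fin k, NP h v (pt c0 S k q.1 q.2) ↔ NP h v (pt (D.comb e) S k q.1 q.2) := by
    intro q
    have h4 : ∀ z, T (h - 1) (pt c0 S k q.1 q.2) z = dbl M (T (h - 1) (pt (D.comb e) S k q.1 q.2) z) := by
      intro z
      rw [← T_map (dbl M) (h - 1) (pt (D.comb e) S k q.1 q.2) z]
      rfl
    constructor
    · rintro ⟨z, a1, a2, a3⟩
      refine ⟨z, a1, a2, fun h5 => a3 ?_⟩
      rw [h4, h5, map_zero]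
    · rintro ⟨z, a1, a2, a3⟩
      refine ⟨z, a1, a2, fun h5 => a3 ?_⟩
      rw [h4] at h5
      exact dbl_inj M _ h5
  have hnps : nps c0 S k h v = nps (D.comb e) S k h v := by
    ext q
    simp only [nps, Finset.mem_filter, Finset.mem_univ, true_and]
    exact hnp q
  have hcase : ¬ NP h v (pt c0 S k i j) ∨ R * R' + 1 < #(nps c0 S k h v) := by
    by_contra hcon
    push Not at hcon
    apply hgood
    refine ⟨e, (hnp (i, j)).mp hcon.1, ?_⟩
    rw [← hnps]
    exact hcon.2
  set f : (Fin k → Fin h) → ℂ := fun x => stdAddChar (∑ c, e c * D.left c (setA k h S x)) with hf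
  set g : Finset (Fin k × Fin v) → ℂ := fun Y => stdAddChar (∑ c, e c * D.right c (setB k v S Y)) with hg
  have hdisc := disc_all (N := 2 * M) lam hl0 hl1 hl hl' (by have := NeZero.pos M; omega) k h v S z0 r R R'
    κ hh hv hv3 hS hz0 hκ c0 m (chr_half M) i j hcase (ε ^ 2) h1 h2 h3 f g
    (fun x => (chr_norm M _).le) (fun x => (chr_norm M _).le)
  have heq : ∑ a : (Fin k → Fin h) × Finset (Fin k × Fin v),
      sg (decide (((i : ℕ) + j * k) * S + z0 ∈ setA k h S a.1 + setB k v S a.2)) *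
        stdAddChar (∑ c, e c * D.content (setA k h S a.1) (setB k v S a.2) c) =
      ∑ x, ∑ Y, stdAddChar (ph (wt (fun z => c0 z + if z = ((i : ℕ) + j * k) * S + z0 then m else 0)
      S k h v) x Y) * f x * g Y := by
    rw [Fintype.sum_prod_type]
    refine Finset.sum_congr rfl fun x _ => Finset.sum_congr rfl fun Y _ => ?_
    simp only
    rw [← sum_ph k h v S hS]
    rw [Finset.sum_add_distrib, AddChar.map_add_eq_mul]
    have h5 : (stdAddChar (∑ z ∈ setA k h S x + setB k v S Y, c0 z) : ℂ) =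
        stdAddChar (∑ z ∈ setA k h S x + setB k v S Y, D.comb e z) := by
      rw [← chr_dbl M]
      congr 1
      exact (map_sum (dbl M) _ _).symm
    have h6 : (stdAddChar (∑ z ∈ setA k h S x + setB k v S Y,
        if z = ((i : ℕ) + j * k) * S + z0 then m else 0) : ℂ) =
        sg (decide (((i : ℕ) + j * k) * S + z0 ∈ setA k h S x + setB k v S Y)) := by
      rw [Finset.sum_ite_eq' (setA k h S x + setB k v S Y) (((i : ℕ) + j * k) * S + z0) (fun _ => m)]
      by_cases h7 : ((i : ℕ) + j * k) * S + z0 ∈ setA k h S x + setB k v S Y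
      · rw [if_pos h7, chr_half M]
        simp [sg, h7]
      · rw [if_neg h7, AddChar.map_zero_eq_one]
        simp [sg, h7]
    rw [h5, h6]
    have h8 : ∑ c, e c * D.content (setA k h S x) (setB k v S Y) c =
        ∑ z ∈ setA k h S x + setB k v S Y, D.comb e z + ∑ c, e c * D.left c (setA k h S x) +
          ∑ c, e c * D.right c (setB k v S Y) := by
      simp only [SumTables.content, sum_add2 k h v S hS, mul_add, Finset.sum_add_distrib]
      congr 2
      simp only [SumTables.comb, SumTables.cf]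
      rw [Finset.sum_comm]
      rw [← Finset.sum_add_distrib]
      refine Finset.sum_congr rfl fun c _ => ?_
      rw [Finset.mul_sum, Finset.mul_sum, ← Finset.sum_add_distrib]
      refine Finset.sum_congr rfl fun z _ => ?_
      ring
    rw [h8, AddChar.map_add_eq_mul, AddChar.map_add_eq_mul]
    simp only [hf, hg]
    ring
  rw [heq]
  have h9 : 0 ≤ (h : ℝ) ^ k * 2 ^ Fintype.card (Fin k × Fin v) * ε := by positivity
  refine (sq_le_sq₀ (norm_nonneg _) h9).mp ?_
  rw [mul_pow]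
  exact hdisc

end Pool.Agent.N381.ST
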