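import Mathlib

set_option autoImplicit false

/-!
# Iterated differences `S_1 S_2 ⋯ S_d`, where `(S_i w) z = w (z + i) - w z`
-/

namespace Pool.Agent.N381.ST

variable {G H : Type} [AddCommGroup G] [AddCommGroup H]

/-- The operator `S_1 ⋯ S_d` on sequences, `(S_i w) z = w (z + i) - w z`. -/
def T : ℕ → (ℕ → G) → ℕ → G
  | 0, w => w
  | d + 1, w => fun z => T d w (z + (d + 1)) - T d w z

/-- `1 + 2 + ⋯ + d`. -/
def al : ℕ → ℕ
  | 0 => 0
  | d + 1 => al d + (d + 1)

theorem al_le (d : ℕ) : al d ≤ (d + 1) ^ 2 := by
  induction d with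
  | zero => simp [al]
  | succ d ih =>
    simp only [al]
    nlinarith

theorem al_pos (d : ℕ) (h : 1 ≤ d) : 1 ≤ al d := by
  cases d with
  | zero => omega
  | succ d => simp only [al]; omega

theorem T_local (d : ℕ) : ∀ (w w' : ℕ → G) (z : ℕ), (∀ y, z ≤ y → y ≤ z + al d → w y = w' y) →
    T d w z = T d w' z := by
  induction d with
  | zero => intro w w' z h; exact h z le_rfl (by simp)
  | succ d ih =>
    intro w w' z h
    simp only [T]
    rw [ih w w' (z + (d + 1)) (fun y h1 h2 => h y (by omega) (by simp only [al]; omega)),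
      ih w w' z (fun y h1 h2 => h y h1 (by simp only [al]; omega))]

theorem T_zero (d : ℕ) : ∀ z, T d (fun _ => (0 : G)) z = 0 := by
  induction d with
  | zero => intro z; rfl
  | succ d ih => intro z; simp only [T, ih, sub_self]

theorem T_map (φ : G →+ H) (d : ℕ) : ∀ (w : ℕ → G) (z : ℕ), T d (fun y => φ (w y)) z = φ (T d w z) := by
  induction d with
  | zero => intro w z; rfl
  | succ d ih => intro w z; simp only [T, ih, map_sub]

theorem T_sub (d : ℕ) : ∀ (w w' : ℕ → G) (z : ℕ), T d (fun y => w y - w' y) z = T d w z - T d w' z := by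
  induction d with
  | zero => intro w w' z; rfl
  | succ d ih => intro w w' z; simp only [T, ih]; abel

theorem T_shift (d : ℕ) : ∀ (w : ℕ → G) (a z : ℕ), T d (fun y => w (y + a)) z = T d w (z + a) := by
  induction d with
  | zero => intro w a z; rfl
  | succ d ih =>
    intro w a z
    simp only [T, ih]
    rw [show z + (d + 1) + a = z + a + (d + 1) by ring]

theorem T_add (d : ℕ) : ∀ (w w' : ℕ → G) (z : ℕ), T d (fun y => w y + w' y) z = T d w z + T d w' z := by
  induction d with
  | zero => intro w w' z; rfl
  | succ d ih => intro w w' z; simp only [T, ih]; abel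

theorem T_sum {ι : Type} (s : Finset ι) (f : ι → ℕ → G) (d z : ℕ) :
    T d (fun y => ∑ c ∈ s, f c y) z = ∑ c ∈ s, T d (f c) z := by
  classical
  induction s using Finset.induction_on with
  | empty => simp [T_zero]
  | insert a s ha ih =>
    simp only [Finset.sum_insert ha]
    rw [T_add, ih]

theorem T_mul {R : Type} [CommRing R] (k : R) (w : ℕ → R) (d z : ℕ) :
    T d (fun y => k * w y) z = k * T d w z := by
  have := T_map (AddMonoidHom.mulLeft k) d w z
  simpa using this

/-- A sequence with a period `δ ≤ d` on an interval is annihilated. -/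
theorem T_periodic (d : ℕ) : ∀ (w : ℕ → G) (δ l u : ℕ), 1 ≤ δ → δ ≤ d →
    (∀ z, l ≤ z → z < u → w (z + δ) = w z) → ∀ z, l ≤ z → z + al d < u + δ → T d w z = 0 := by
  induction d with
  | zero => intro w δ l u h1 h2; omega
  | succ d ih =>
    intro w δ l u h1 h2 hw z hz1 hz2
    simp only [al] at hz2
    rcases Nat.lt_or_ge d δ with h | h
    · have hδ : δ = d + 1 := by omega
      subst hδ
      simp only [T]
      rw [← T_shift, ← T_sub]
      rw [T_local d _ (fun _ => (0 : G)) z (fun y h1 h2 => by
        have := hw y (by omega) (by omega)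
        simp only [this, sub_self])]
      exact T_zero d z
    · simp only [T]
      rw [ih w δ l u h1 h hw (z + (d + 1)) (by omega) (by omega),
        ih w δ l u h1 h hw z hz1 (by omega), sub_self]

/-- A periodic sequence which vanishes on a full period vanishes. -/
theorem periodic_zero (u : ℕ → G) (p lo hi c : ℕ) (hp : 1 ≤ p)
    (hu : ∀ z, lo ≤ z → z < hi → u (z + p) = u z) (hc : lo ≤ c) (hc2 : c ≤ hi)
    (h0 : ∀ z, c ≤ z → z < c + p → u z = 0) : ∀ z, lo ≤ z → z < hi + p → u z = 0 := by
  have hup : ∀ m z, c ≤ z → z ≤ c + m → z < hi + p → u z = 0 := by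
    intro m
    induction m with
    | zero => intro z h1 h2 h3; exact h0 z h1 (by omega)
    | succ m ih =>
      intro z h1 h2 h3
      by_cases h : z < c + p
      · exact h0 z h1 h
      · have := hu (z - p) (by omega) (by omega)
        rw [show z - p + p = z by omega] at this
        rw [this]
        exact ih (z - p) (by omega) (by omega) (by omega)
  have hdown : ∀ m z, lo ≤ z → z < c → c ≤ z + m → u z = 0 := by
    intro m
    induction m using Nat.strong_induction_on with
    | _ m ih =>
      intro z h1 h2 h3
      have h4 := hu z h1 (by omega)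
      rw [← h4]
      by_cases h : c ≤ z + p
      · exact h0 _ h (by omega)
      · exact ih (m - p) (by omega) (z + p) (by omega) (by omega) (by omega)
  intro z h1 h2
  by_cases h : c ≤ z
  · exact hup (z - c) z h (by omega) h2
  · exact hdown (c - z) z h1 (by omega) (by omega)

/-- A sequence annihilated on an interval which vanishes on a run of `al d` places vanishes. -/
theorem T_run (d : ℕ) : ∀ (w : ℕ → G) (lo hi c : ℕ), lo ≤ c → c ≤ hi →
    (∀ z, lo ≤ z → z < hi → T d w z = 0) → (∀ z, c ≤ z → z < c + al d → w z = 0) →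
    ∀ z, lo ≤ z → z < hi + al d → w z = 0 := by
  induction d with
  | zero =>
    intro w lo hi c h1 h2 h3 h4 z h5 h6
    simp only [al] at h6
    exact h3 z h5 (by omega)
  | succ d ih =>
    intro w lo hi c h1 h2 h3 h4 z h5 h6
    simp only [al] at h4 h6
    have hu0 : ∀ z, c ≤ z → z < c + (d + 1) → T d w z = 0 := by
      intro y hy1 hy2
      rw [T_local d w (fun _ => (0 : G)) y (fun x hx1 hx2 => h4 x (by omega) (by omega))]
      exact T_zero d y
    have hu1 := periodic_zero (T d w) (d + 1) lo hi c (by omega)
      (fun y hy1 hy2 => by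
        have := h3 y hy1 hy2
        simp only [T] at this
        exact sub_eq_zero.mp this) h1 h2 hu0
    exact ih w lo (hi + (d + 1)) c h1 (by omega) hu1 (fun y hy1 hy2 => h4 y hy1 (by omega)) z h5
      (by omega)

end Pool.Agent.N381.ST
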